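import Pool.Agent.W_895653_h19.Menger

/-!
# Menger's theorem for digraphs: the paths are the orbits of the injection
-/

set_option autoImplicit false

open Relation Finset

namespace Pool.Agent.W895653

variable {V : Type}

theorem mb_inl {k : ℕ} (x : V ⊕ Fin k) (h : ∀ j, x ≠ Sum.inr j) : ∃ v, x = Sum.inl v := by
  cases x with
  | inl v => exact ⟨v, rfl⟩
  | inr j => exact absurd rfl (h j)

/-- The orbit of a source leaves `V`. -/
theorem mb_exit [Fintype V] {k : ℕ} (f : V ⊕ Fin k → V ⊕ Fin k) (hf : Function.Injective f) (i : Fin k) :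
    ∃ n : ℕ, ∃ j, f^[n + 1] (Sum.inr i) = Sum.inr j := by
  by_contra hcon
  push Not at hcon
  obtain ⟨n, m, hnm, he⟩ := Finite.exists_ne_map_eq_of_infinite (fun n : ℕ => f^[n] (Sum.inr i))
  wlog hlt : n < m generalizing n m with H
  · exact H m n hnm.symm he.symm (lt_of_le_of_ne (not_lt.1 hlt) hnm.symm)
  have h1 : f^[m] (Sum.inr i) = f^[n] (f^[m - n] (Sum.inr i)) := by
    rw [← Function.iterate_add_apply]
    congr 2
    omega
  have he' : f^[n] (Sum.inr i) = f^[m] (Sum.inr i) := he
  rw [h1] at he'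
  have h2 := hf.iterate n he'
  obtain ⟨q, hq⟩ : ∃ q, m - n = q + 1 := ⟨m - n - 1, by omega⟩
  rw [hq] at h2
  exact hcon q i h2.symm

/-- **Menger's theorem**: if no set of fewer than `k` vertices meets all directed paths from `A` to `B`,
then there are `k` vertex disjoint directed paths from `A` to `B`. -/
theorem menger_thm [Fintype V] (D : V → V → Prop) (A B : Finset V) (k : ℕ)
    (h : ∀ S : Finset V, S.card < k → ∃ a ∈ A, a ∉ S ∧ ∃ b ∈ B, b ∉ S ∧
      ReflTransGen (fun x y => D x y ∧ y ∉ S) a b) : Nonempty (Lk D A B k) := by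
  classical
  obtain ⟨f, hf, hsrc, hstep, hsink⟩ := exists_inj D A B k h
  -- the first exit time
  let m : Fin k → ℕ := fun i => Nat.find (mb_exit f hf i)
  have hm : ∀ i, ∃ j, f^[m i + 1] (Sum.inr i) = Sum.inr j := fun i => Nat.find_spec (mb_exit f hf i)
  have hlt : ∀ i n, n < m i → ∀ j, f^[n + 1] (Sum.inr i) ≠ Sum.inr j := by
    intro i n hn j hj
    exact Nat.find_min (mb_exit f hf i) hn ⟨j, hj⟩
  have hm0 : ∀ i, 0 < m i := by
    intro i
    by_contra h0
    have h0 : m i = 0 := by omega
    obtain ⟨j, hj⟩ := hm i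
    rw [h0] at hj
    obtain ⟨a, _, ha⟩ := hsrc i
    simp [ha] at hj
  have hv : ∀ i n, ∃ v : V, n < m i → f^[n + 1] (Sum.inr i) = Sum.inl v := by
    intro i n
    by_cases hn : n < m i
    · obtain ⟨v, hv⟩ := mb_inl _ (hlt i n hn)
      exact ⟨v, fun _ => hv⟩
    · obtain ⟨a, _, _⟩ := hsrc i
      exact ⟨a, fun h => absurd h hn⟩
  choose p hp using hv
  refine ⟨⟨fun i => m i - 1, p, ?_, ?_, ?_, ?_⟩⟩
  · intro i
    obtain ⟨a, haA, ha⟩ := hsrc i
    have h1 := hp i 0 (hm0 i)
    simp only [zero_add, Function.iterate_one, ha, Sum.inl.injEq] at h1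
    exact h1 ▸ haA
  · intro i
    obtain ⟨j, hj⟩ := hm i
    have h1 := hp i (m i - 1) (by have := hm0 i; omega)
    have e : m i - 1 + 1 = m i := by have := hm0 i; omega
    rw [e] at h1
    rw [Function.iterate_succ_apply', h1] at hj
    exact hsink _ _ hj
  · intro i n hn
    have h1 := hp i n (by omega)
    have h2 := hp i (n + 1) (by omega)
    rw [Function.iterate_succ_apply', h1] at h2
    rcases hstep _ _ h2 with h3 | h3
    · exfalso
      rw [h3] at h2
      have h4 : f^[n + 1] (f (Sum.inr i)) = f^[n + 1] (Sum.inr i) := by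
        rw [← Function.iterate_succ_apply, Function.iterate_succ_apply', h1, h2]
      have h5 := hf.iterate (n + 1) h4
      obtain ⟨a, _, ha⟩ := hsrc i
      rw [ha] at h5
      simp at h5
    · exact h3
  · intro i n j l hn hl hpe
    have hn' : n < m i := by have := hm0 i; omega
    have hl' : l < m j := by have := hm0 j; omega
    have h1 := hp i n hn'
    have h2 := hp j l hl'
    have h3 : f^[n + 1] (Sum.inr i) = f^[l + 1] (Sum.inr j) := by rw [h1, h2, hpe]
    rcases lt_trichotomy n l with hlt' | heq | hgt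
    · exfalso
      have h4 : f^[l + 1] (Sum.inr j) = f^[n + 1] (f^[l - n] (Sum.inr j)) := by
        rw [← Function.iterate_add_apply]
        exact congrArg (fun t => f^[t] (Sum.inr j)) (by omega)
      rw [h4] at h3
      have h5 := hf.iterate (n + 1) h3
      obtain ⟨q, hq⟩ : ∃ q, l - n = q + 1 := ⟨l - n - 1, by omega⟩
      rw [hq] at h5
      exact hlt j q (by omega) i h5.symm
    · subst heq
      have h5 := hf.iterate (n + 1) h3
      exact ⟨Sum.inr.inj h5, rfl⟩
    · exfalso
      have h4 : f^[n + 1] (Sum.inr i) = f^[l + 1] (f^[n - l] (Sum.inr i)) := by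
        rw [← Function.iterate_add_apply]
        exact congrArg (fun t => f^[t] (Sum.inr i)) (by omega)
      rw [h4] at h3
      have h5 := hf.iterate (l + 1) h3
      obtain ⟨q, hq⟩ : ∃ q, n - l = q + 1 := ⟨n - l - 1, by omega⟩
      rw [hq] at h5
      exact hlt i q (by omega) j h5

end Pool.Agent.W895653
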