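import Mathlib

/-!
# MP_895653_co: strong connectivity and strong complete minors (helper19)

A digraph on a finite type `V` is a relation `D : V → V → Prop` (loops never matter below).
-/

set_option autoImplicit false

namespace Pool.Agent.W895653

/-- The subdigraph induced on `X` is strongly connected: every `v ∈ X` is reached from every `u ∈ X`
by a directed path all of whose vertices lie in `X`. -/
def StrongOn {V : Type} (D : V → V → Prop) (X : Set V) : Prop :=
  ∀ u ∈ X, ∀ v ∈ X, Relation.ReflTransGen (fun a b => D a b ∧ b ∈ X) u v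

/-- `D` is `k`-strongly-connected (`k ≥ 1`): at least `k + 1` vertices, and deleting any set of at most
`k - 1` vertices leaves a strongly connected digraph. -/
def KStrong {V : Type} [Fintype V] (D : V → V → Prop) (k : ℕ) : Prop :=
  k + 1 ≤ Fintype.card V ∧ ∀ S : Finset V, S.card + 1 ≤ k → StrongOn D {v | v ∉ S}

/-- `D` contains a strong complete minor on `r` vertices: pairwise disjoint nonempty sets
`X 0, ..., X (r - 1)`, each inducing a strongly connected subdigraph, with an arc from `X i` to `X j`
for all `i ≠ j`. -/
def StrongMinor {V : Type} (D : V → V → Prop) (r : ℕ) : Prop :=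
  ∃ X : Fin r → Set V, (∀ i, (X i).Nonempty) ∧ (∀ i j, i ≠ j → Disjoint (X i) (X j)) ∧
    (∀ i, StrongOn D (X i)) ∧ ∀ i j, i ≠ j → ∃ u ∈ X i, ∃ v ∈ X j, D u v

/-- A system of `k` vertex disjoint directed paths from `A` to `B`: the `i`-th path is
`p i 0, p i 1, ..., p i (len i)`. -/
structure Lk {V : Type} (D : V → V → Prop) (A B : Finset V) (k : ℕ) where
  len : Fin k → ℕ
  p : Fin k → ℕ → V
  start : ∀ i, p i 0 ∈ A
  stop : ∀ i, p i (len i) ∈ B
  step : ∀ i n, n < len i → D (p i n) (p i (n + 1))
  inj : ∀ i n j m, n ≤ len i → m ≤ len j → p i n = p j m → i = j ∧ n = m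

end Pool.Agent.W895653
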