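import Pool.Agent.W_895653_h19.Defs

/-!
# MP_895653_co: a `k`-strong digraph with a large biclique and no strong complete minor on `k + 1` vertices

Base digraph `H` on `Option (Fin N × Fin 4)`: write `s = none`, `x i = (i, 0)`, `a i = (i, 1)`, `b i = (i, 2)`,
`w i = (i, 3)`. Arcs: `s → x i → a i`, `a i → b j` for ALL `i, j`, `b i → w i → s`. The digraph `D` replaces
every vertex of `H` by `k` independent vertices.
-/

set_option autoImplicit false

open Relation

namespace Pool.Agent.W895653

/-- Arcs of the base digraph. -/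
def EH (N : ℕ) : Option (Fin N × Fin 4) → Option (Fin N × Fin 4) → Prop
  | none, some (_, l) => l = 0
  | some (_, l), none => l = 3
  | some (i, l), some (j, l') => (l = 0 ∧ l' = 1 ∧ i = j) ∨ (l = 1 ∧ l' = 2) ∨ (l = 2 ∧ l' = 3 ∧ i = j)
  | none, none => False

/-- The blow-up. -/
def ED (N k : ℕ) (u v : Option (Fin N × Fin 4) × Fin k) : Prop := EH N u.1 v.1

theorem ED_irrefl (N k : ℕ) (v : Option (Fin N × Fin 4) × Fin k) : ¬ ED N k v v := by
  obtain ⟨v, c⟩ := v
  unfold ED
  rcases v with _ | ⟨i, l⟩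
  · simp [EH]
  · simp only [EH]
    omega

theorem EH_to (N : ℕ) (h' : Option (Fin N × Fin 4)) (hN : N ≠ 0) : TransGen (EH N) none h' := by
  have i0 : Fin N := ⟨0, Nat.pos_of_ne_zero hN⟩
  have h0 : ∀ i : Fin N, TransGen (EH N) none (some (i, 0)) := fun i =>
    TransGen.single (show EH N none (some (i, 0)) from rfl)
  have h1 : ∀ i : Fin N, TransGen (EH N) none (some (i, 1)) := fun i =>
    (h0 i).tail (show EH N (some (i, 0)) (some (i, 1)) from Or.inl ⟨rfl, rfl, rfl⟩)
  have h2 : ∀ i : Fin N, TransGen (EH N) none (some (i, 2)) := fun i =>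
    (h1 i).tail (show EH N (some (i, 1)) (some (i, 2)) from Or.inr (Or.inl ⟨rfl, rfl⟩))
  have h3 : ∀ i : Fin N, TransGen (EH N) none (some (i, 3)) := fun i =>
    (h2 i).tail (show EH N (some (i, 2)) (some (i, 3)) from Or.inr (Or.inr ⟨rfl, rfl, rfl⟩))
  have h4 : TransGen (EH N) none none := (h3 i0).tail (show EH N (some (i0, 3)) none from rfl)
  rcases h' with _ | ⟨i, l⟩
  · exact h4
  · fin_cases l
    · exact h0 i
    · exact h1 i
    · exact h2 i
    · exact h3 i

theorem EH_from (N : ℕ) (h : Option (Fin N × Fin 4)) (hN : N ≠ 0) : TransGen (EH N) h none := by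
  have h3 : ∀ i : Fin N, TransGen (EH N) (some (i, 3)) none := fun i =>
    TransGen.single (show EH N (some (i, 3)) none from rfl)
  have h2 : ∀ i : Fin N, TransGen (EH N) (some (i, 2)) none := fun i =>
    TransGen.head (show EH N (some (i, 2)) (some (i, 3)) from Or.inr (Or.inr ⟨rfl, rfl, rfl⟩)) (h3 i)
  have h1 : ∀ i : Fin N, TransGen (EH N) (some (i, 1)) none := fun i =>
    TransGen.head (show EH N (some (i, 1)) (some (i, 2)) from Or.inr (Or.inl ⟨rfl, rfl⟩)) (h2 i)
  have h0 : ∀ i : Fin N, TransGen (EH N) (some (i, 0)) none := fun i =>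
    TransGen.head (show EH N (some (i, 0)) (some (i, 1)) from Or.inl ⟨rfl, rfl, rfl⟩) (h1 i)
  rcases h with _ | ⟨i, l⟩
  · exact EH_to N none hN
  · fin_cases l
    · exact h0 i
    · exact h1 i
    · exact h2 i
    · exact h3 i

theorem EH_strong (N : ℕ) (h h' : Option (Fin N × Fin 4)) : N ≠ 0 → TransGen (EH N) h h' :=
  fun hN => (EH_from N h hN).trans (EH_to N h' hN)

theorem ED_kstrong (N k : ℕ) (hN : 1 ≤ N) (hk : 1 ≤ k) : KStrong (ED N k) k := by
  classical
  constructor
  · simp only [Fintype.card_prod, Fintype.card_option, Fintype.card_fin]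
    nlinarith
  · intro S hS u hu v hv
    have key : ∀ h' : Option (Fin N × Fin 4), TransGen (EH N) u.1 h' → ∀ c' : Fin k, (h', c') ∉ S →
        ReflTransGen (fun a b => ED N k a b ∧ b ∈ {v | v ∉ S}) u (h', c') := by
      intro h' hh
      induction hh with
      | single hstep =>
        intro c' hc'
        exact ReflTransGen.single ⟨hstep, hc'⟩
      | tail _ hstep ih =>
        rename_i b c _
        intro c' hc'
        obtain ⟨d, hd⟩ : ∃ d : Fin k, (b, d) ∉ S := by
          by_contra hcon
          push Not at hcon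
          have h1 : (Finset.univ.image fun d : Fin k => (b, d)) ⊆ S := by
            intro x hx
            obtain ⟨d, -, rfl⟩ := Finset.mem_image.1 hx
            exact hcon d
          have h2 := Finset.card_le_card h1
          rw [Finset.card_image_of_injective _ (fun x y h => (Prod.ext_iff.1 h).2),
            Finset.card_univ, Fintype.card_fin] at h2
          omega
        exact (ih d hd).tail ⟨hstep, hc'⟩
    exact key v.1 (EH_strong N u.1 v.1 (by omega)) v.2 hv

theorem ED_biclique (N k : ℕ) (hk : 1 ≤ k) : ∃ A B : Finset (Option (Fin N × Fin 4) × Fin k),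
    Disjoint A B ∧ N ≤ A.card ∧ N ≤ B.card ∧ ∀ a ∈ A, ∀ b ∈ B, ED N k a b := by
  classical
  let z : Fin k := ⟨0, hk⟩
  refine ⟨Finset.univ.image fun i : Fin N => (some (i, 1), z),
    Finset.univ.image fun i : Fin N => (some (i, 2), z), ?_, ?_, ?_, ?_⟩
  · rw [Finset.disjoint_left]
    intro x hx hx'
    obtain ⟨i, -, rfl⟩ := Finset.mem_image.1 hx
    obtain ⟨j, -, hj⟩ := Finset.mem_image.1 hx'
    simp only [Prod.mk.injEq, Option.some.injEq] at hj
    exact absurd hj.1.2 (by decide)
  · rw [Finset.card_image_of_injective, Finset.card_univ, Fintype.card_fin]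
    intro i j h
    simp only [Prod.mk.injEq, Option.some.injEq] at h
    exact h.1.1
  · rw [Finset.card_image_of_injective, Finset.card_univ, Fintype.card_fin]
    intro i j h
    simp only [Prod.mk.injEq, Option.some.injEq] at h
    exact h.1.1
  · intro a ha b hb
    obtain ⟨i, -, rfl⟩ := Finset.mem_image.1 ha
    obtain ⟨j, -, rfl⟩ := Finset.mem_image.1 hb
    exact Or.inr (Or.inl ⟨rfl, rfl⟩)

end Pool.Agent.W895653
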