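import Pool.Agent.W_895653_h19.ExA

/-!
# MP_895653_co: the blow-up `ED N k` has no strong complete minor on `k + 1` vertices
-/

set_option autoImplicit false

open Relation

namespace Pool.Agent.W895653

/-- The level of a vertex of the base digraph. -/
def elev {N : ℕ} : Option (Fin N × Fin 4) → ℕ
  | none => 0
  | some (_, l) => (l : ℕ)

private theorem elev_lt {N k : ℕ} {u v : Option (Fin N × Fin 4) × Fin k} (h : ED N k u v)
    (hu : u.1 ≠ none) (hv : v.1 ≠ none) : elev u.1 < elev v.1 := by
  obtain ⟨u, c⟩ := u
  obtain ⟨v, d⟩ := v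
  simp only at hu hv
  unfold ED at h
  rcases u with _ | ⟨i, l⟩
  · exact absurd rfl hu
  rcases v with _ | ⟨j, l'⟩
  · exact absurd rfl hv
  simp only [EH] at h
  simp only [elev]
  rcases h with ⟨h1, h2, _⟩ | ⟨h1, h2⟩ | ⟨h1, h2, _⟩ <;> subst h1 <;> subst h2 <;> decide

private theorem elev_path {N k : ℕ} {X : Set (Option (Fin N × Fin 4) × Fin k)}
    (hX : ∀ x ∈ X, x.1 ≠ none) {u v : Option (Fin N × Fin 4) × Fin k} (hu : u ∈ X)
    (h : ReflTransGen (fun a b => ED N k a b ∧ b ∈ X) u v) :
    v ∈ X ∧ (u = v ∨ elev u.1 < elev v.1) := by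
  induction h with
  | refl => exact ⟨hu, Or.inl rfl⟩
  | tail _ h2 ih =>
    refine ⟨h2.2, Or.inr ?_⟩
    have h3 := elev_lt h2.1 (hX _ ih.1) (hX _ h2.2)
    rcases ih.2 with h4 | h4
    · rw [h4]; exact h3
    · exact lt_trans h4 h3

private theorem last_arc {V : Type} {D : V → V → Prop} {X : Set V} {u v : V} (hu : u ∈ X)
    (h : ReflTransGen (fun a b => D a b ∧ b ∈ X) u v) (hne : u ≠ v) :
    ∃ t ∈ X, D t v := by
  rcases (ReflTransGen.cases_tail h) with h1 | ⟨t, h1, h2⟩
  · exact absurd h1.symm hne
  · refine ⟨t, ?_, h2.1⟩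
    rcases (ReflTransGen.cases_tail h1) with h3 | ⟨t', _, h4⟩
    · rw [h3]; exact hu
    · exact h4.2

private theorem first_arc {V : Type} {D : V → V → Prop} {X : Set V} {u v : V}
    (h : ReflTransGen (fun a b => D a b ∧ b ∈ X) u v) (hne : u ≠ v) :
    ∃ t ∈ X, D u t := by
  rcases (ReflTransGen.cases_head h) with h1 | ⟨t, h1, _⟩
  · exact absurd h1 hne
  · exact ⟨t, h1.2, h1.1⟩

/-- Proof. Suppose `X 0, ..., X k` is such a minor.
(1) Only `k` vertices have first component `none`, the `X i` are disjoint, so some `X i₀` contains no vertex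
`(none, c)`.
(2) `X i₀` is a single vertex `y`: let `lev (some (i, l)) = l`. Every arc `ED u v` with `u.1, v.1 ≠ none` has
`lev v = lev u + 1`. If `u ≠ v` are in `X i₀`, the paths `u ⇝ v` and `v ⇝ u` inside `X i₀` have at least one arc each,
so `lev u < lev v < lev u`: contradiction.
(3) Let `y = (some (i, l), c)`. For every `j ≠ i₀` there are `z ∈ X j` with `ED y z` and `z' ∈ X j` with `ED z' y`;
`z ≠ z'` (no two opposite arcs: check `EH`), and `X j` is strongly connected. CLAIM: `X j` contains a vertex whose
first component is `y.1 = some (i, l)`.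
 `l = 0` or `l = 2`: `z.1 = some (i, l + 1)` and the only first components with an arc to `some (i, l + 1)` are
 `some (i, l)` (for `l + 1 = 1` or `3`); the last arc `t → z` of a path from `z'` to `z` inside `X j` has `t ∈ X j` and
 `t.1 = some (i, l)`.
 `l = 1` or `l = 3`: `z'.1 = some (i, l - 1)` and the only out-neighbours of vertices over `some (i, l - 1)`
 (`l - 1 = 0` or `2`) are the vertices over `some (i, l)`; the first arc `z' → t` of a path from `z'` to `z` inside
 `X j` has `t ∈ X j`, `t.1 = some (i, l)`.
(4) So all `k + 1` disjoint sets `X 0, ..., X k` contain a vertex `(y.1, c')`: but there are only `k` of these. -/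
theorem ED_no_minor (N k : ℕ) : ¬ StrongMinor (ED N k) (k + 1) := by
  rintro ⟨X, hne, hdis, hstr, harc⟩
  -- no common first component in all the sets
  have hpig : ∀ h : Option (Fin N × Fin 4), ¬ ∀ i, ∃ c, (h, c) ∈ X i := by
    intro h hall
    choose c hc using hall
    have hinj : Function.Injective c := by
      intro i j hij
      by_contra hn
      refine Set.disjoint_left.1 (hdis i j hn) (hc i) ?_
      rw [hij]
      exact hc j
    have := Fintype.card_le_of_injective c hinj
    simp at this
  have h0 := hpig none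
  push Not at h0
  obtain ⟨i₀, hi₀⟩ := h0
  have hX0 : ∀ x ∈ X i₀, x.1 ≠ none := by
    rintro ⟨x, c⟩ hx hn
    simp only at hn
    subst hn
    exact hi₀ c hx
  obtain ⟨y, hy⟩ := hne i₀
  have hsing : ∀ x ∈ X i₀, x = y := by
    intro x hx
    have h1 := (elev_path hX0 hx (hstr i₀ x hx y hy)).2
    have h2 := (elev_path hX0 hy (hstr i₀ y hy x hx)).2
    rcases h1 with h1 | h1
    · exact h1
    · rcases h2 with h2 | h2
      · exact h2.symm
      · exact absurd h1 (not_lt.2 h2.le)
  apply hpig y.1
  intro j
  by_cases hj : j = i₀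
  · subst hj
    exact ⟨y.2, hy⟩
  · obtain ⟨y1, hy1, z, hz, hyz⟩ := harc i₀ j (Ne.symm hj)
    obtain ⟨z', hz', y2, hy2, hzy⟩ := harc j i₀ hj
    rw [hsing y1 hy1] at hyz
    rw [hsing y2 hy2] at hzy
    have hyn := hX0 y hy
    obtain ⟨y, cy⟩ := y
    obtain ⟨z, cz⟩ := z
    obtain ⟨z', cz'⟩ := z'
    simp only at hyn
    rcases y with _ | ⟨i, l⟩
    · exact absurd rfl hyn
    have hnn : (⟨z', cz'⟩ : Option (Fin N × Fin 4) × Fin k) ≠ ⟨z, cz⟩ := by
      intro he
      rw [Prod.mk.injEq] at he
      obtain ⟨he, -⟩ := he
      subst he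
      unfold ED at hyz hzy
      rcases z' with _ | ⟨i', l'⟩
      · simp only [EH] at hyz hzy
        rw [hyz] at hzy
        exact absurd hzy (by decide)
      · simp only [EH] at hyz hzy
        rcases hyz with ⟨h1, h2, _⟩ | ⟨h1, h2⟩ | ⟨h1, h2, _⟩ <;>
          subst h1 <;> subst h2 <;> revert hzy <;> simp
    have hpath := hstr j _ hz' _ hz
    have hcase : ((l : ℕ) = 0 ∨ (l : ℕ) = 2) ∨ ((l : ℕ) = 1 ∨ (l : ℕ) = 3) := by omega
    rcases hcase with hl | hl
    · obtain ⟨⟨t, ct⟩, ht, htz⟩ := last_arc hz' hpath hnn
      refine ⟨ct, ?_⟩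
      have hte : t = some (i, l) := by
        unfold ED at htz hyz
        rcases z with _ | ⟨iz, lz⟩
        · simp only [EH] at hyz
          subst hyz
          exfalso
          revert hl
          decide
        · simp only [EH] at hyz
          rcases hyz with ⟨h1, h2, h3⟩ | ⟨h1, h2⟩ | ⟨h1, h2, h3⟩
          · subst h1 h2 h3
            rcases t with _ | ⟨it, lt⟩
            · simp [EH] at htz
            · simp only [EH] at htz
              rcases htz with ⟨h1, h2, h3⟩ | ⟨h1, h2⟩ | ⟨h1, h2, h3⟩
              · rw [h1, h3]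
              · exact absurd h2 (by decide)
              · exact absurd h2 (by decide)
          · subst h1
            exfalso
            revert hl
            decide
          · subst h1 h2 h3
            rcases t with _ | ⟨it, lt⟩
            · simp [EH] at htz
            · simp only [EH] at htz
              rcases htz with ⟨h1, h2, h3⟩ | ⟨h1, h2⟩ | ⟨h1, h2, h3⟩
              · exact absurd h2 (by decide)
              · exact absurd h2 (by decide)
              · rw [h1, h3]
      rw [← hte]
      exact ht
    · obtain ⟨⟨t, ct⟩, ht, htz⟩ := first_arc hpath hnn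
      refine ⟨ct, ?_⟩
      have hte : t = some (i, l) := by
        unfold ED at htz hzy
        rcases z' with _ | ⟨iz, lz⟩
        · simp only [EH] at hzy
          subst hzy
          exfalso
          revert hl
          decide
        · simp only [EH] at hzy
          rcases hzy with ⟨h1, h2, h3⟩ | ⟨h1, h2⟩ | ⟨h1, h2, h3⟩
          · subst h1 h2 h3
            rcases t with _ | ⟨it, lt⟩
            · simp [EH] at htz
            · simp only [EH] at htz
              rcases htz with ⟨h1, h2, h3⟩ | ⟨h1, h2⟩ | ⟨h1, h2, h3⟩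
              · rw [h2, h3]
              · exact absurd h1 (by decide)
              · exact absurd h1 (by decide)
          · subst h2
            exfalso
            revert hl
            decide
          · subst h1 h2 h3
            rcases t with _ | ⟨it, lt⟩
            · simp [EH] at htz
            · simp only [EH] at htz
              rcases htz with ⟨h1, h2, h3⟩ | ⟨h1, h2⟩ | ⟨h1, h2, h3⟩
              · exact absurd h1 (by decide)
              · exact absurd h1 (by decide)
              · rw [h2, h3]
      rw [← hte]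
      exact ht

end Pool.Agent.W895653
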