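import Pool.Agent.W_895653_h19.Defs

/-!
# MP_895653_co: dense digraphs contain one-way complete bipartite digraphs (Kovari-Sos-Turan)
-/

set_option autoImplicit false

open Finset

namespace Pool.Agent.W895653

/-- The number of arcs. -/
noncomputable def numArcs {V : Type} (D : V → V → Prop) : ℕ := Nat.card {p : V × V // D p.1 p.2}

private theorem Kst_numArcs {V : Type} [Fintype V] (D : V → V → Prop)
    [∀ v, DecidablePred (D v)] :
    numArcs D = ∑ v, (univ.filter (D v)).card := by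
  unfold numArcs
  rw [Nat.card_congr (Equiv.subtypeProdEquivSigmaSubtype D), Nat.card_sigma]
  refine Finset.sum_congr rfl fun v _ => ?_
  rw [Nat.card_eq_fintype_card, Fintype.card_subtype]

/-- The pigeonhole step. -/
private theorem Kst_pigeon {V : Type} [Fintype V] [DecidableEq V] (D : V → V → Prop)
    [∀ v, DecidablePred (D v)] (hD : ∀ v, ¬ D v v) (s : ℕ) (hs : 1 ≤ s)
    (h : (Fintype.card V).choose s * (s - 1) < ∑ v, ((univ.filter (D v)).card).choose s) :
    ∃ A B : Finset V, Disjoint A B ∧ A.card = s ∧ B.card = s ∧ ∀ a ∈ A, ∀ b ∈ B, D a b := by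
  set T : Finset (Σ _ : V, Finset V) :=
    univ.sigma fun v => (univ.filter (D v)).powersetCard s with hT
  have hTc : T.card = ∑ v, ((univ.filter (D v)).card).choose s := by
    rw [hT, Finset.card_sigma]
    exact Finset.sum_congr rfl fun v _ => Finset.card_powersetCard _ _
  obtain ⟨S, hS, hlt⟩ := Finset.exists_lt_card_fiber_of_mul_lt_card_of_maps_to
    (s := T) (t := (univ : Finset V).powersetCard s) (f := fun q => q.2) (n := s - 1)
    (fun q hq => by
      rw [hT, Finset.mem_sigma, Finset.mem_powersetCard] at hq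
      exact Finset.mem_powersetCard.2 ⟨Finset.subset_univ _, hq.2.2⟩)
    (by rw [Finset.card_powersetCard, Finset.card_univ, hTc]; exact h)
  rw [Finset.mem_powersetCard] at hS
  set F : Finset V := univ.filter fun v => S ⊆ univ.filter (D v) with hF
  have hle : (T.filter fun q => q.2 = S).card ≤ F.card := by
    refine Finset.card_le_card_of_injOn (fun q => q.1) ?_ ?_
    · intro q hq
      rw [Finset.mem_coe, Finset.mem_filter, hT, Finset.mem_sigma, Finset.mem_powersetCard] at hq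
      rw [Finset.mem_coe, hF, Finset.mem_filter]
      refine ⟨Finset.mem_univ _, ?_⟩
      rw [← hq.2]
      exact hq.1.2.1
    · intro q hq q' hq' he
      rw [Finset.mem_coe, Finset.mem_filter] at hq hq'
      have he' : q.1 = q'.1 := he
      have h2 : q.2 = q'.2 := by rw [hq.2, hq'.2]
      cases q
      cases q'
      simp only at he' h2
      subst he'
      subst h2
      rfl
  have hFs : s ≤ F.card := by omega
  obtain ⟨A, hAF, hA⟩ := Finset.exists_subset_card_eq hFs
  have hall : ∀ a ∈ A, ∀ b ∈ S, D a b := by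
    intro a ha b hb
    have h1 := (Finset.mem_filter.1 (hAF ha)).2 hb
    exact (Finset.mem_filter.1 h1).2
  refine ⟨A, S, ?_, hA, hS.2, hall⟩
  rw [Finset.disjoint_left]
  intro a ha hb
  exact hD a (hall a ha a hb)

/-- The analytic estimate. -/
private theorem Kst_real {V : Type} [Fintype V] (s : ℕ) (hs : 1 ≤ s) (d : V → ℕ)
    (hn : (s * 2 ^ s) ^ 2 ≤ Fintype.card V)
    (he : (Fintype.card V : ℝ) ^ (2 - 1 / (2 * (s : ℝ))) ≤ ∑ v, (d v : ℝ)) :
    (s - 1) * Fintype.card V ^ s < ∑ v, (d v + 1 - s) ^ s := by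
  set n := Fintype.card V with hnd
  have hs0 : (1 : ℝ) ≤ s := by exact_mod_cast hs
  have hK : (1 : ℝ) ≤ (s : ℝ) * 2 ^ s := by
    have : (1 : ℝ) ≤ 2 ^ s := one_le_pow₀ (by norm_num)
    nlinarith
  have hn' : ((s : ℝ) * 2 ^ s) ^ 2 ≤ (n : ℝ) := by exact_mod_cast hn
  have hn1 : (1 : ℝ) ≤ (n : ℝ) := by nlinarith
  have hn0 : (0 : ℝ) < (n : ℝ) := by linarith
  set q := Real.sqrt n with hq
  have hqq : q * q = n := Real.mul_self_sqrt hn0.le
  have hqK : (s : ℝ) * 2 ^ s ≤ q := Real.le_sqrt_of_sq_le hn'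
  have hq1 : 1 ≤ q := hK.trans hqK
  set E := (n : ℝ) ^ (2 - 1 / (2 * (s : ℝ))) with hE
  have hE0 : 0 < E := Real.rpow_pos_of_pos hn0 _
  -- the lower bound for E
  have hE1 : (n : ℝ) * q ≤ E := by
    have h1 : (n : ℝ) * q = (n : ℝ) ^ (3 / 2 : ℝ) := by
      rw [hq, Real.sqrt_eq_rpow]
      nth_rewrite 1 [← Real.rpow_one (n : ℝ)]
      rw [← Real.rpow_add hn0]
      norm_num
    rw [h1, hE]
    refine Real.rpow_le_rpow_of_exponent_le hn1 ?_
    have h2 : 1 / (2 * (s : ℝ)) ≤ 1 / 2 := by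
      rw [div_le_div_iff₀ (by linarith) two_pos]
      linarith
    linarith
  have hE2 : 2 * (s : ℝ) * n ≤ E := by
    have h1 : 2 * (s : ℝ) ≤ q := by
      have h2 : (2 : ℝ) ≤ 2 ^ s := by
        calc (2 : ℝ) = 2 ^ 1 := by norm_num
          _ ≤ 2 ^ s := pow_le_pow_right₀ (by norm_num) hs
      nlinarith
    nlinarith
  -- the power of E
  have hEs : E ^ s = (n : ℝ) ^ (2 * s - 1) * q := by
    rw [hE, ← Real.rpow_natCast, ← Real.rpow_mul hn0.le, hq, Real.sqrt_eq_rpow,
      ← Real.rpow_natCast (n : ℝ) (2 * s - 1), ← Real.rpow_add hn0]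
    congr 1
    rw [Nat.cast_sub (by omega)]
    push_cast
    field_simp
    ring
  -- the sum of the truncated degrees
  have hx : ∀ v, (d v : ℝ) - s ≤ ((d v + 1 - s : ℕ) : ℝ) := by
    intro v
    rcases le_total s (d v + 1) with h | h
    · rw [Nat.cast_sub h]
      push_cast
      linarith
    · have h1 : ((d v : ℕ) : ℝ) + 1 ≤ s := by exact_mod_cast h
      have h2 : (0 : ℝ) ≤ ((d v + 1 - s : ℕ) : ℝ) := Nat.cast_nonneg _
      linarith
  have hsum : E / 2 ≤ ∑ v, ((d v + 1 - s : ℕ) : ℝ) := by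
    have h1 : ∑ v, ((d v : ℝ) - s) ≤ ∑ v, ((d v + 1 - s : ℕ) : ℝ) :=
      Finset.sum_le_sum fun v _ => hx v
    rw [Finset.sum_sub_distrib, Finset.sum_const, Finset.card_univ, nsmul_eq_mul] at h1
    nlinarith
  have hpow := pow_sum_div_card_le_sum_pow (s := (univ : Finset V))
    (f := fun v => ((d v + 1 - s : ℕ) : ℝ)) (fun v _ => Nat.cast_nonneg _) (s - 1)
  rw [Nat.sub_add_cancel hs, Finset.card_univ] at hpow
  have h3 : (E / 2) ^ s ≤ (∑ v, ((d v + 1 - s : ℕ) : ℝ)) ^ s :=
    pow_le_pow_left₀ (by positivity) hsum s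
  have h4 : ((s : ℝ) - 1) * (n : ℝ) ^ s < (E / 2) ^ s / (n : ℝ) ^ (s - 1) := by
    rw [lt_div_iff₀ (pow_pos hn0 _), div_pow, lt_div_iff₀ (by positivity), hEs]
    have h5 : (n : ℝ) ^ s * (n : ℝ) ^ (s - 1) = (n : ℝ) ^ (2 * s - 1) := by
      rw [← pow_add]
      congr 1
      omega
    have h6 : 0 < (n : ℝ) ^ (2 * s - 1) := pow_pos hn0 _
    have h7 : ((s : ℝ) - 1) * 2 ^ s < q := by
      have : (0 : ℝ) < 2 ^ s := by positivity
      nlinarith
    calc ((s : ℝ) - 1) * (n : ℝ) ^ s * (n : ℝ) ^ (s - 1) * 2 ^ s =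
        (n : ℝ) ^ (2 * s - 1) * (((s : ℝ) - 1) * 2 ^ s) := by rw [← h5]; ring
      _ < (n : ℝ) ^ (2 * s - 1) * q := mul_lt_mul_of_pos_left h7 h6
  have h8 : ((s : ℝ) - 1) * (n : ℝ) ^ s < ∑ v, ((d v + 1 - s : ℕ) : ℝ) ^ s :=
    h4.trans_le ((div_le_div_of_nonneg_right h3 (pow_nonneg hn0.le _)).trans hpow)
  have h9 : (((s - 1) * n ^ s : ℕ) : ℝ) < ((∑ v, (d v + 1 - s) ^ s : ℕ) : ℝ) := by
    rw [Nat.cast_mul, Nat.cast_sub hs, Nat.cast_sum]
    push_cast
    exact h8
  exact_mod_cast h9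

/-- A loopless digraph with `n ≥ n0` vertices and at least `n ^ (2 - 1 / (2 s))` arcs contains disjoint `s`-sets
`A`, `B` with all arcs from `A` to `B`.

Proof. Let `d v` be the out-degree, `∑ v, d v = e = numArcs D`. For `v : V` and an `s`-subset `S` of the
out-neighbourhood of `v` count the pairs `(v, S)`: there are `∑ v, (d v).choose s`. If this is more than
`(s - 1) * n.choose s`, some `s`-set `S` lies in the out-neighbourhoods of at least `s` vertices `v`
(pigeonhole, e.g. `Finset.exists_lt_card_fiber_of_mul_lt_card_of_maps_to`): take `A` = `s` of these vertices and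
`B = S`; `A` and `B` are disjoint because there are no loops. Now `s! * (d.choose s) = d.descFactorial s ≥
(d + 1 - s) ^ s` (`Nat.pow_sub_le_descFactorial`) and `s! * n.choose s = n.descFactorial s ≤ n ^ s`. So it is enough
that `∑ v, x v ^ s > (s - 1) * n ^ s` with `x v = d v + 1 - s` (natural subtraction, `x v ≥ d v - s` as reals), and
`∑ x v ≥ e - s n`. By the power mean inequality (`inner_le_nnorm_mul_nnorm`..., best:
`Real.pow_sum_div_card_le_sum_pow` or `Finset.inner_mul_le_norm_mul_norm`) `∑ x v ^ s ≥ (∑ x v) ^ s / n ^ (s - 1)`.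
For `n` large `e - s n ≥ e / 2` (as `e ≥ n ^ (3 / 2)`), and `(e / 2) ^ s ≥ n ^ (2 s - 1 / 2) / 2 ^ s >
(s - 1) * n ^ (2 s - 1)` as soon as `n ^ (1 / 2) > (s - 1) * 2 ^ s`. -/
theorem kst (s : ℕ) (hs : 1 ≤ s) : ∃ n0 : ℕ, ∀ (V : Type) [Fintype V] [DecidableEq V]
    (D : V → V → Prop), (∀ v, ¬ D v v) → n0 ≤ Fintype.card V →
    (Fintype.card V : ℝ) ^ (2 - 1 / (2 * (s : ℝ))) ≤ (numArcs D : ℝ) →
    ∃ A B : Finset V, Disjoint A B ∧ A.card = s ∧ B.card = s ∧ ∀ a ∈ A, ∀ b ∈ B, D a b := by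
  classical
  refine ⟨(s * 2 ^ s) ^ 2, fun V _ _ D hD hn he => ?_⟩
  refine Kst_pigeon D hD s hs ?_
  rw [Kst_numArcs D] at he
  push_cast at he
  have h1 := Kst_real s hs (fun v => (univ.filter (D v)).card) hn he
  have h2 : ∑ v, ((univ.filter (D v)).card + 1 - s) ^ s ≤
      ∑ v, s.factorial * ((univ.filter (D v)).card).choose s :=
    Finset.sum_le_sum fun v _ => by
      rw [← Nat.descFactorial_eq_factorial_mul_choose]
      exact Nat.pow_sub_le_descFactorial _ _
  have h3 : s.factorial * (Fintype.card V).choose s ≤ Fintype.card V ^ s := by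
    rw [← Nat.descFactorial_eq_factorial_mul_choose]
    exact Nat.descFactorial_le_pow _ _
  rw [← Finset.mul_sum] at h2
  have h4 : s.factorial * ((Fintype.card V).choose s * (s - 1)) <
      s.factorial * ∑ v, ((univ.filter (D v)).card).choose s := by
    calc s.factorial * ((Fintype.card V).choose s * (s - 1)) =
        (s - 1) * (s.factorial * (Fintype.card V).choose s) := by ring
      _ ≤ (s - 1) * Fintype.card V ^ s := Nat.mul_le_mul_left _ h3
      _ < _ := h1.trans_le h2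
  exact Nat.lt_of_mul_lt_mul_left h4

end Pool.Agent.W895653
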