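import Pool.Agent.W_895653_h19.ExA
import Pool.Agent.W_895653_h19.Kst

/-!
# MP_895653_co: the blow-up `ED N k` is dense
-/

set_option autoImplicit false

open Finset

namespace Pool.Agent.W895653

private def ExC_f (N k : ℕ) (p : (Fin N × Fin k) × (Fin N × Fin k)) :
    {q : (Option (Fin N × Fin 4) × Fin k) × (Option (Fin N × Fin 4) × Fin k) //
      ED N k q.1 q.2} :=
  ⟨((some (p.1.1, 1), p.1.2), (some (p.2.1, 2), p.2.2)), by
    unfold ED EH
    simp⟩

private theorem ExC_f_inj (N k : ℕ) : Function.Injective (ExC_f N k) := by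
  rintro ⟨⟨a, b⟩, ⟨c, d⟩⟩ ⟨⟨a', b'⟩, ⟨c', d'⟩⟩ h
  have h' := congrArg Subtype.val h
  simp only [ExC_f, Prod.mk.injEq, Option.some.injEq] at h'
  obtain ⟨⟨⟨h1, -⟩, h2⟩, ⟨h3, -⟩, h4⟩ := h'
  subst h1
  subst h2
  subst h3
  subst h4
  rfl

/-- Proof. `card V = (4 N + 1) k`; the arcs from `(some (i, 1), c)` to `(some (j, 2), c')`, for all `i, j : Fin N` and
`c, c' : Fin k`, are `N ^ 2 * k ^ 2` many (injection from `(Fin N × Fin k) × (Fin N × Fin k)` into the set of arcs), and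
`(4 N + 1) ^ 2 ≤ 17 N ^ 2` for `N ≥ 9`. -/
theorem ED_arcs (N k : ℕ) (hN : 9 ≤ N) :
    (Fintype.card (Option (Fin N × Fin 4) × Fin k)) ^ 2 ≤ 17 * numArcs (ED N k) := by
  have h1 : (N * k) * (N * k) ≤ numArcs (ED N k) := by
    have := Nat.card_le_card_of_injective (ExC_f N k) (ExC_f_inj N k)
    rw [Nat.card_eq_fintype_card, Fintype.card_prod, Fintype.card_prod, Fintype.card_fin,
      Fintype.card_fin] at this
    exact this
  have h2 : Fintype.card (Option (Fin N × Fin 4) × Fin k) = (N * 4 + 1) * k := by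
    rw [Fintype.card_prod, Fintype.card_option, Fintype.card_prod, Fintype.card_fin,
      Fintype.card_fin, Fintype.card_fin]
  rw [h2]
  have h3 : (N * 4 + 1) ^ 2 ≤ 17 * (N * N) := by nlinarith
  calc ((N * 4 + 1) * k) ^ 2 = (N * 4 + 1) ^ 2 * (k * k) := by ring
    _ ≤ 17 * (N * N) * (k * k) := Nat.mul_le_mul_right _ h3
    _ = 17 * ((N * k) * (N * k)) := by ring
    _ ≤ 17 * numArcs (ED N k) := Nat.mul_le_mul_left _ h1

end Pool.Agent.W895653
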