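import Pool.Agent.W_895653_h19.Defs

/-!
# MP_895653_co: from path systems to strong complete minors
-/

set_option autoImplicit false

open Relation Finset

namespace Pool.Agent.W895653

variable {V : Type}

/-- The vertex set of an initial segment of a path. -/
def Seg (p : ℕ → V) (m : ℕ) : Set V := {x | ∃ n, n ≤ m ∧ x = p n}

theorem seg_walk (D : V → V → Prop) (p : ℕ → V) (m : ℕ) (hstep : ∀ n, n < m → D (p n) (p (n + 1)))
    (a : ℕ) : ∀ b, a ≤ b → b ≤ m → ReflTransGen (fun x y => D x y ∧ y ∈ Seg p m) (p a) (p b) := by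
  intro b hab
  induction b, hab using Nat.le_induction with
  | base => intro _; exact ReflTransGen.refl
  | succ b hab ih =>
    intro hb
    exact (ih (by omega)).tail ⟨hstep b (by omega), ⟨b + 1, hb, rfl⟩⟩

/-- A path whose last vertex has an arc to its first vertex spans a strongly connected digraph. -/
theorem strong_seg (D : V → V → Prop) (p : ℕ → V) (m : ℕ) (hstep : ∀ n, n < m → D (p n) (p (n + 1)))
    (hclose : 0 < m → D (p m) (p 0)) : StrongOn D (Seg p m) := by
  rintro u ⟨a, ha, rfl⟩ v ⟨b, hb, rfl⟩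
  rcases le_or_gt a b with hab | hab
  · exact seg_walk D p m hstep a b hab hb
  · have h1 := seg_walk D p m hstep a m ha le_rfl
    have h2 := seg_walk D p m hstep 0 b (Nat.zero_le _) hb
    exact (h1.tail ⟨hclose (by omega), ⟨0, Nat.zero_le _, rfl⟩⟩).trans h2

theorem strong_single (D : V → V → Prop) (y : V) : StrongOn D {y} := by
  rintro u rfl v rfl
  exact ReflTransGen.refl

/-- Lemma 1: all arcs from `A` to `B` and `k` disjoint paths back. -/
theorem minor_of_link (D : V → V → Prop) (A B : Finset V) (k : ℕ)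
    (hAB : ∀ a ∈ A, ∀ b ∈ B, D a b) (P : Lk D B A k) : StrongMinor D k := by
  refine ⟨fun i => Seg (P.p i) (P.len i), ?_, ?_, ?_, ?_⟩
  · intro i
    exact ⟨P.p i 0, 0, Nat.zero_le _, rfl⟩
  · intro i j hij
    rw [Set.disjoint_left]
    rintro x ⟨n, hn, rfl⟩ ⟨m, hm, he⟩
    exact hij (P.inj i n j m hn hm he).1
  · intro i
    exact strong_seg D _ _ (fun n hn => P.step i n hn) (fun _ => hAB _ (P.stop i) _ (P.start i))
  · intro i j _
    exact ⟨P.p i (P.len i), ⟨_, le_rfl, rfl⟩, P.p j 0, ⟨0, Nat.zero_le _, rfl⟩,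
      hAB _ (P.stop i) _ (P.start j)⟩

/-- Assembly: truncated paths and one extra vertex `y`. -/
theorem build (D : V → V → Prop) (R L A B : Finset V) (k : ℕ) (P : Lk D A B k) (hA : A ⊆ R)
    (hLR : ∀ l ∈ L, ∀ r ∈ R, D l r) (m : Fin k → ℕ) (hm : ∀ j, m j ≤ P.len j) (y : V) (hy : y ∈ L)
    (hz : ∀ j, P.p j (m j) ∈ L ∧ D (P.p j (m j)) y) (hny : ∀ j n, n ≤ m j → P.p j n ≠ y) :
    StrongMinor D (k + 1) := by
  have h0 : ∀ j, P.p j 0 ∈ R := fun j => hA (P.start j)
  refine ⟨Fin.cons {y} (fun j => Seg (P.p j) (m j)), ?_, ?_, ?_, ?_⟩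
  · intro i
    refine Fin.cases ?_ (fun j => ?_) i
    · simp
    · simp only [Fin.cons_succ]
      exact ⟨P.p j 0, 0, Nat.zero_le _, rfl⟩
  · intro i i'
    refine Fin.cases ?_ (fun j => ?_) i
    · refine Fin.cases (fun h => absurd rfl h) (fun j' _ => ?_) i'
      simp only [Fin.cons_zero, Fin.cons_succ, Set.disjoint_singleton_left]
      rintro ⟨n, hn, he⟩
      exact hny j' n hn he.symm
    · refine Fin.cases (fun _ => ?_) (fun j' hj => ?_) i'
      · simp only [Fin.cons_zero, Fin.cons_succ, Set.disjoint_singleton_right]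
        rintro ⟨n, hn, he⟩
        exact hny j n hn he.symm
      · simp only [Fin.cons_succ]
        rw [Set.disjoint_left]
        rintro x ⟨n, hn, rfl⟩ ⟨l, hl, he⟩
        exact hj (congrArg Fin.succ (P.inj j n j' l (hn.trans (hm j)) (hl.trans (hm j')) he).1)
  · intro i
    refine Fin.cases ?_ (fun j => ?_) i
    · simpa using strong_single D y
    · simp only [Fin.cons_succ]
      exact strong_seg D _ _ (fun n hn => P.step j n (hn.trans_le (hm j)))
        (fun _ => hLR _ (hz j).1 _ (h0 j))
  · intro i i'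
    refine Fin.cases ?_ (fun j => ?_) i
    · refine Fin.cases (fun h => absurd rfl h) (fun j' _ => ?_) i'
      simp only [Fin.cons_zero, Fin.cons_succ]
      exact ⟨y, rfl, P.p j' 0, ⟨0, Nat.zero_le _, rfl⟩, hLR _ hy _ (h0 j')⟩
    · refine Fin.cases (fun _ => ?_) (fun j' hj => ?_) i'
      · simp only [Fin.cons_zero, Fin.cons_succ]
        exact ⟨P.p j (m j), ⟨_, le_rfl, rfl⟩, y, rfl, (hz j).2⟩
      · simp only [Fin.cons_succ]
        exact ⟨P.p j (m j), ⟨_, le_rfl, rfl⟩, P.p j' 0, ⟨0, Nat.zero_le _, rfl⟩,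
          hLR _ (hz j).1 _ (h0 j')⟩

/-- Lemma 2: `V = R ∪ S ∪ L` with `|S| ≤ k`, no arc from `R` to `L`, all arcs from `L` to `R`, and
all arcs from `L₀` to `Y`, both inside `L`, `|Y| ≥ k + 1`; `k` disjoint paths from `R` to `L₀`. -/
theorem key [DecidableEq V] (D : V → V → Prop) (R S L L0 Y : Finset V) (k : ℕ)
    (hcov : ∀ v, v ∈ R ∨ v ∈ S ∨ v ∈ L) (hRdL : ∀ v ∈ R, v ∉ L) (hRdS : ∀ v ∈ R, v ∉ S)
    (hLdS : ∀ v ∈ L, v ∉ S)
    (hS : S.card ≤ k) (hRL : ∀ u ∈ R, ∀ v ∈ L, ¬ D u v) (hLR : ∀ l ∈ L, ∀ r ∈ R, D l r)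
    (hL0 : L0 ⊆ L) (hY : Y ⊆ L) (h0Y : ∀ x ∈ L0, ∀ y ∈ Y, D x y) (hYc : k + 1 ≤ Y.card)
    (P : Lk D R L0 k) : StrongMinor D (k + 1) := by
  -- (a) every path contains a vertex of `S`
  have ha : ∀ i, ∃ n, n ≤ P.len i ∧ P.p i n ∈ S := by
    intro i
    by_contra hcon
    push Not at hcon
    have hR : ∀ n, n ≤ P.len i → P.p i n ∈ R := by
      intro n
      induction n with
      | zero => intro _; exact P.start i
      | succ n ih =>
        intro hn
        have h1 := ih (by omega)
        have h2 := P.step i n (by omega)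
        rcases hcov (P.p i (n + 1)) with h | h | h
        · exact h
        · exact absurd h (hcon _ hn)
        · exact absurd h2 (hRL _ h1 _ h)
    exact hRdL _ (hR _ le_rfl) (hL0 (P.stop i))
  choose t ht htS using ha
  -- (b) exactly one
  have hb : ∀ i n, n ≤ P.len i → P.p i n ∈ S → n = t i := by
    intro i n hn hnS
    have hinj : Function.Injective (fun j : Fin k => (⟨P.p j (t j), htS j⟩ : {x // x ∈ S})) := by
      intro j j' hjj
      exact (P.inj j (t j) j' (t j') (ht j) (ht j') (Subtype.mk.inj hjj)).1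
    have hsurj : Function.Surjective (fun j : Fin k => (⟨P.p j (t j), htS j⟩ : {x // x ∈ S})) := by
      have hcard : Fintype.card {x // x ∈ S} ≤ Fintype.card (Fin k) := by
        simpa using hS
      exact ((Fintype.bijective_iff_injective_and_card _).2
        ⟨hinj, le_antisymm (Fintype.card_le_of_injective _ hinj) hcard⟩).2
    obtain ⟨j, hj⟩ := hsurj ⟨P.p i n, hnS⟩
    have h1 := P.inj j (t j) i n (ht j) hn (Subtype.mk.inj hj)
    rw [← h1.2, h1.1]
  -- (c) before `t i` in `R`, after `t i` in `L`
  have hc1 : ∀ i n, n < t i → P.p i n ∈ R := by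
    intro i n
    induction n with
    | zero => intro _; exact P.start i
    | succ n ih =>
      intro hn
      have h1 := ih (by omega)
      have h2 := P.step i n (by have := ht i; omega)
      rcases hcov (P.p i (n + 1)) with h | h | h
      · exact h
      · exact absurd (hb i (n + 1) (by have := ht i; omega) h) (by omega)
      · exact absurd h2 (hRL _ h1 _ h)
  have hc2 : ∀ i n, t i < n → n ≤ P.len i → P.p i n ∈ L := by
    intro i n htn hn
    rcases hcov (P.p i n) with h | h | h
    · exfalso
      have hR : ∀ l, n ≤ l → l ≤ P.len i → P.p i l ∈ R := by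
        intro l hl
        induction l, hl using Nat.le_induction with
        | base => intro _; exact h
        | succ l hl ih =>
          intro hl'
          have h1 := ih (by omega)
          have h2 := P.step i l (by omega)
          rcases hcov (P.p i (l + 1)) with h3 | h3 | h3
          · exact h3
          · exact absurd (hb i (l + 1) hl' h3) (by omega)
          · exact absurd h2 (hRL _ h1 _ h3)
      exact hRdL _ (hR _ hn le_rfl) (hL0 (P.stop i))
    · exact absurd (hb i n hn h) (by omega)
    · exact h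
  by_cases hex : ∃ y ∈ Y, ∀ j n, n ≤ P.len j → P.p j n ≠ y
  · obtain ⟨y, hyY, hy⟩ := hex
    exact build D R L R L0 k P (Finset.Subset.refl _) hLR P.len (fun _ => le_rfl) y (hY hyY)
      (fun j => ⟨hL0 (P.stop j), h0Y _ (P.stop j) _ hyY⟩) hy
  · push Not at hex
    have hne : Nonempty (Fin k) := by
      obtain ⟨y, hy⟩ : Y.Nonempty := Finset.card_pos.1 (by omega)
      obtain ⟨j, _⟩ := hex y hy
      exact ⟨j⟩
    choose! jf nf hnf hpf using hex
    obtain ⟨y, hyY, y', hyY', hne, hjj⟩ : ∃ y ∈ Y, ∃ y' ∈ Y, y ≠ y' ∧ jf y = jf y' := by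
      apply Finset.exists_ne_map_eq_of_card_lt_of_maps_to (t := (Finset.univ : Finset (Fin k)))
      · simpa using hYc
      · intro a _
        simp
    wlog hlt : nf y < nf y' generalizing y y' with H
    · refine H y' hyY' y hyY hne.symm hjj.symm ?_
      rcases lt_trichotomy (nf y) (nf y') with h | h | h
      · exact absurd h hlt
      · exfalso
        apply hne
        rw [← hpf y hyY, ← hpf y' hyY', h, hjj]
      · exact h
    set i := jf y' with hi
    have hyL := hY hyY
    have hy1 : P.p i (nf y) = y := by rw [← hjj]; exact hpf y hyY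
    have hy2 : P.p i (nf y') = y' := hpf y' hyY'
    have hn2 : nf y' ≤ P.len i := hnf y' hyY'
    have htlt : t i < nf y := by
      rcases lt_trichotomy (t i) (nf y) with h | h | h
      · exact h
      · exfalso
        have := htS i
        rw [h, hy1] at this
        exact hLdS _ hyL this
      · exfalso
        have := hc1 i _ h
        rw [hy1] at this
        exact hRdL _ this hyL
    refine build D R L R L0 k P (Finset.Subset.refl _) hLR
      (fun j => if j = i then nf y' - 1 else P.len j) ?_ y' (hY hyY') ?_ ?_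
    · intro j
      split_ifs with h
      · subst h; omega
      · exact le_rfl
    · intro j
      split_ifs with h
      · subst h
        refine ⟨hc2 _ _ (by omega) (by omega), ?_⟩
        have h1 := P.step i (nf y' - 1) (by omega)
        have e : nf y' - 1 + 1 = nf y' := by omega
        rw [e, hy2] at h1
        exact h1
      · exact ⟨hL0 (P.stop j), h0Y _ (P.stop j) _ hyY'⟩
    · intro j n hn he
      rw [← hy2] at he
      split_ifs at hn with h
      · subst h
        have := (P.inj _ n _ (nf y') (by omega) hn2 he).2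
        omega
      · exact h (P.inj j n i (nf y') hn hn2 he).1

end Pool.Agent.W895653
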