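import Pool.Agent.W_895653_h19.Key

/-!
# MP_895653_co: the key lemma for digraphs of bounded independence number

`L`, `M`, `H` are disjoint, with all arcs from `L` to `M`, from `M` to `H` and from `L` to `H`; `P` is a system of
`k` disjoint paths from `H` to `L`. If `M` is large and the digraph has bounded independence number there is a
strong complete minor on `k + 1` vertices.
-/

set_option autoImplicit false

open Relation Finset

namespace Pool.Agent.W895653

variable {V : Type}

/-- Splitting the `j`-th path after the vertex number `n'`. -/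
theorem split_path (D : V → V → Prop) (L M H : Finset V) (k : ℕ)
    (hLM : ∀ x ∈ L, ∀ y ∈ M, D x y) (hMH : ∀ x ∈ M, ∀ y ∈ H, D x y) (hLH : ∀ x ∈ L, ∀ y ∈ H, D x y)
    (P : Lk D H L k) (j : Fin k) (n' c : ℕ) (hn' : n' < c) (hc : c ≤ P.len j)
    (hn'M : P.p j n' ∈ M) (hcM : P.p j c ∈ M)
    (hback : ReflTransGen (fun x y => D x y ∧ y ∈ {v | ∃ n, n' < n ∧ n ≤ P.len j ∧ v = P.p j n})
      (P.p j c) (P.p j (n' + 1))) : StrongMinor D (k + 1) := by
  set X0 : Set V := {v | ∃ n, n' < n ∧ n ≤ P.len j ∧ v = P.p j n} with hX0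
  set m : Fin k → ℕ := fun l => if l = j then n' else P.len l with hm
  have hmj : m j = n' := by simp [hm]
  have hml : ∀ l, l ≠ j → m l = P.len l := fun l hl => by simp [hm, hl]
  have hmle : ∀ l, m l ≤ P.len l := by
    intro l
    by_cases h : l = j
    · subst h; rw [hmj]; omega
    · rw [hml l h]
  -- the last vertex of the `l`-th set dominates `H`
  have hlast : ∀ l, ∀ y ∈ H, D (P.p l (m l)) y := by
    intro l y hy
    by_cases h : l = j
    · subst h; rw [hmj]; exact hMH _ hn'M _ hy
    · rw [hml l h]; exact hLH _ (P.stop l) _ hy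
  -- `X0` is strongly connected
  have hwalk : ∀ a b, n' < a → a ≤ b → b ≤ P.len j →
      ReflTransGen (fun x y => D x y ∧ y ∈ X0) (P.p j a) (P.p j b) := by
    intro a b ha hab
    induction b, hab using Nat.le_induction with
    | base => intro _; exact ReflTransGen.refl
    | succ b hab ih =>
      intro hb
      exact (ih (by omega)).tail ⟨P.step j b (by omega), b + 1, by omega, hb, rfl⟩
  have hX0s : StrongOn D X0 := by
    rintro u ⟨a, ha, ha', rfl⟩ v ⟨b, hb, hb', rfl⟩
    have h1 := hwalk a (P.len j) ha ha' le_rfl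
    have h2 : ReflTransGen (fun x y => D x y ∧ y ∈ X0) (P.p j a) (P.p j c) :=
      h1.tail ⟨hLM _ (P.stop j) _ hcM, c, hn', hc, rfl⟩
    exact (h2.trans hback).trans (hwalk (n' + 1) b (by omega) (by omega) hb')
  have hlen : n' < P.len j := by omega
  refine ⟨Fin.cons X0 (fun l => Seg (P.p l) (m l)), ?_, ?_, ?_, ?_⟩
  · intro i
    refine Fin.cases ?_ (fun l => ?_) i
    · simp only [Fin.cons_zero]
      exact ⟨P.p j c, c, hn', hc, rfl⟩
    · simp only [Fin.cons_succ]
      exact ⟨P.p l 0, 0, Nat.zero_le _, rfl⟩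
  · have hd : ∀ l, Disjoint X0 (Seg (P.p l) (m l)) := by
      intro l
      rw [Set.disjoint_left]
      rintro x ⟨a, ha, ha', rfl⟩ ⟨b, hb, he⟩
      have h1 := P.inj j a l b ha' (hb.trans (hmle l)) he
      obtain ⟨h2, h3⟩ := h1
      subst h2
      rw [hmj] at hb
      omega
    intro i i'
    refine Fin.cases ?_ (fun l => ?_) i
    · refine Fin.cases (fun h => absurd rfl h) (fun l' _ => ?_) i'
      simp only [Fin.cons_zero, Fin.cons_succ]
      exact hd l'
    · refine Fin.cases (fun _ => ?_) (fun l' hl => ?_) i'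
      · simp only [Fin.cons_zero, Fin.cons_succ]
        exact (hd l).symm
      · simp only [Fin.cons_succ]
        rw [Set.disjoint_left]
        rintro x ⟨n, hn, rfl⟩ ⟨q, hq, he⟩
        exact hl (congrArg Fin.succ (P.inj l n l' q (hn.trans (hmle l)) (hq.trans (hmle l')) he).1)
  · intro i
    refine Fin.cases ?_ (fun l => ?_) i
    · simpa using hX0s
    · simp only [Fin.cons_succ]
      exact strong_seg D _ _ (fun n hn => P.step l n (hn.trans_le (hmle l)))
        (fun _ => hlast l _ (P.start l))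
  · intro i i'
    refine Fin.cases ?_ (fun l => ?_) i
    · refine Fin.cases (fun h => absurd rfl h) (fun l' _ => ?_) i'
      simp only [Fin.cons_zero, Fin.cons_succ]
      exact ⟨P.p j (P.len j), ⟨_, hlen, le_rfl, rfl⟩, P.p l' 0, ⟨0, Nat.zero_le _, rfl⟩,
        hLH _ (P.stop j) _ (P.start l')⟩
    · refine Fin.cases (fun _ => ?_) (fun l' hl => ?_) i'
      · simp only [Fin.cons_zero, Fin.cons_succ]
        by_cases h : l = j
        · subst h
          exact ⟨P.p l n', ⟨n', hmj.ge, rfl⟩, P.p l (n' + 1), ⟨n' + 1, by omega, by omega, rfl⟩,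
            P.step l n' hlen⟩
        · exact ⟨P.p l (m l), ⟨_, le_rfl, rfl⟩, P.p j c, ⟨c, hn', hc, rfl⟩, by
            rw [hml l h]; exact hLM _ (P.stop l) _ hcM⟩
      · simp only [Fin.cons_succ]
        exact ⟨P.p l (m l), ⟨_, le_rfl, rfl⟩, P.p l' 0, ⟨0, Nat.zero_le _, rfl⟩,
          hlast l _ (P.start l')⟩

/-- Shortcut of the `j`-th path. -/
theorem shortcut (D : V → V → Prop) (A B : Finset V) (k : ℕ) (P : Lk D A B k) (j : Fin k)
    (n1 n2 : ℕ) (h12 : n1 < n2) (h2 : n2 ≤ P.len j) (hD : D (P.p j n1) (P.p j n2)) :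
    ∃ P' : Lk D A B k, ∀ i n, n ≤ P'.len i →
      ∃ m, m ≤ P.len i ∧ P'.p i n = P.p i m ∧ (i = j → m ≤ n1 ∨ n2 ≤ m) := by
  classical
  -- renumbering of the `j`-th path
  set g : Fin k → ℕ → ℕ := fun i n => if i = j then (if n ≤ n1 then n else n + (n2 - n1 - 1)) else n
    with hg
  have hgi : ∀ i, i ≠ j → ∀ n, g i n = n := fun i hi n => by simp [hg, hi]
  have hgj1 : ∀ n, n ≤ n1 → g j n = n := fun n hn => by simp [hg, hn]
  have hgj2 : ∀ n, n1 < n → g j n = n + (n2 - n1 - 1) := fun n hn => by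
    simp [hg, not_le.2 hn]
  set len' : Fin k → ℕ := fun i => if i = j then P.len j - (n2 - n1 - 1) else P.len i with hlen'
  have hlj : len' j = P.len j - (n2 - n1 - 1) := by simp [hlen']
  have hli : ∀ i, i ≠ j → len' i = P.len i := fun i hi => by simp [hlen', hi]
  have hgle : ∀ i n, n ≤ len' i → g i n ≤ P.len i := by
    intro i n hn
    by_cases h : i = j
    · subst h
      rw [hlj] at hn
      rcases le_or_gt n n1 with h' | h'
      · rw [hgj1 n h']; omega
      · rw [hgj2 n h']; omega
    · rw [hgi i h]; rw [hli i h] at hn; exact hn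
  have hginj : ∀ i n m, g i n = g i m → n = m := by
    intro i n m he
    by_cases h : i = j
    · subst h
      rcases le_or_gt n n1 with h' | h' <;> rcases le_or_gt m n1 with h'' | h''
      · rw [hgj1 n h', hgj1 m h''] at he; exact he
      · rw [hgj1 n h', hgj2 m h''] at he; omega
      · rw [hgj2 n h', hgj1 m h''] at he; omega
      · rw [hgj2 n h', hgj2 m h''] at he; omega
    · rw [hgi i h, hgi i h] at he; exact he
  refine ⟨⟨len', fun i n => P.p i (g i n), ?_, ?_, ?_, ?_⟩, ?_⟩
  · intro i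
    have : g i 0 = 0 := by
      by_cases h : i = j
      · subst h; exact hgj1 0 (Nat.zero_le _)
      · exact hgi i h 0
    simp only [this]
    exact P.start i
  · intro i
    have : g i (len' i) = P.len i := by
      by_cases h : i = j
      · subst h
        rw [hlj, hgj2 _ (by omega)]
        omega
      · rw [hgi i h, hli i h]
    simp only [this]
    exact P.stop i
  · intro i n hn
    by_cases h : i = j
    · subst h
      rw [hlj] at hn
      rcases lt_trichotomy n n1 with h' | h' | h'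
      · simp only [hgj1 n h'.le, hgj1 (n + 1) h']
        exact P.step i n (by omega)
      · subst h'
        simp only [hgj1 n le_rfl, hgj2 (n + 1) (Nat.lt_succ_self n)]
        have e : n + 1 + (n2 - n - 1) = n2 := by omega
        rw [e]
        exact hD
      · simp only [hgj2 n h', hgj2 (n + 1) (by omega)]
        have e : n + 1 + (n2 - n1 - 1) = n + (n2 - n1 - 1) + 1 := by omega
        rw [e]
        exact P.step i _ (by omega)
    · simp only [hgi i h]
      rw [hli i h] at hn
      exact P.step i n hn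
  · intro i n i' m hn hm he
    have h1 := P.inj i (g i n) i' (g i' m) (hgle i n hn) (hgle i' m hm) he
    obtain ⟨h2, h3⟩ := h1
    subst h2
    exact ⟨rfl, hginj i n m h3⟩
  · intro i n hn
    refine ⟨g i n, hgle i n hn, rfl, ?_⟩
    rintro rfl
    rcases le_or_gt n n1 with h' | h'
    · left; rw [hgj1 n h']; exact h'
    · right; rw [hgj2 n h']; omega

/-- **Key lemma.** -/
theorem key2 [DecidableEq V] (D : V → V → Prop) (L M H : Finset V) (k α : ℕ)
    (hLM : ∀ x ∈ L, ∀ y ∈ M, D x y) (hMH : ∀ x ∈ M, ∀ y ∈ H, D x y) (hLH : ∀ x ∈ L, ∀ y ∈ H, D x y)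
    (hdLM : ∀ x ∈ L, x ∉ M) (hMc : k * α + 1 ≤ M.card)
    (hα : ∀ I : Finset V, (∀ u ∈ I, ∀ v ∈ I, u ≠ v → ¬ D u v) → I.card ≤ α)
    (P : Lk D H L k) : StrongMinor D (k + 1) := by
  classical
  -- a path system missing a vertex of `M` is enough
  have hfree : ∀ Q : Lk D H L k, (∃ y ∈ M, ∀ j n, n ≤ Q.len j → Q.p j n ≠ y) →
      StrongMinor D (k + 1) := by
    rintro Q ⟨y, hyM, hy⟩
    refine build D H (L ∪ M) H L k Q (Finset.Subset.refl _) ?_ Q.len (fun _ => le_rfl) y
      (Finset.mem_union_right _ hyM)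
      (fun j => ⟨Finset.mem_union_left _ (Q.stop j), hLM _ (Q.stop j) _ hyM⟩) hy
    intro l hl r hr
    rcases Finset.mem_union.1 hl with h | h
    · exact hLH _ h _ hr
    · exact hMH _ h _ hr
  by_cases hex : ∃ y ∈ M, ∀ j n, n ≤ P.len j → P.p j n ≠ y
  · exact hfree P hex
  push Not at hex
  have hne : Nonempty (Fin k) := by
    obtain ⟨y, hy⟩ : M.Nonempty := Finset.card_pos.1 (by omega)
    obtain ⟨j, _⟩ := hex y hy
    exact ⟨j⟩
  choose! jf nf hnf hpf using hex
  obtain ⟨j, _, hj⟩ := Finset.exists_lt_card_fiber_of_mul_lt_card_of_maps_to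
    (s := M) (t := (Finset.univ : Finset (Fin k))) (f := jf) (n := α) (fun a _ => Finset.mem_univ _)
    (by simpa using hMc)
  set F := M.filter fun x => jf x = j with hF
  have hFM : ∀ y ∈ F, y ∈ M := fun y hy => (Finset.mem_filter.1 hy).1
  have hFj : ∀ y ∈ F, jf y = j := fun y hy => (Finset.mem_filter.1 hy).2
  have hpF : ∀ y ∈ F, P.p j (nf y) = y := fun y hy => by
    have := hpf y (hFM y hy)
    rw [hFj y hy] at this
    exact this
  have hlt : ∀ y ∈ F, nf y < P.len j := by
    intro y hy
    have h1 := hnf y (hFM y hy)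
    rw [hFj y hy] at h1
    refine lt_of_le_of_ne h1 fun he => ?_
    have h2 := P.stop j
    rw [← he, hpF y hy] at h2
    exact hdLM _ h2 (hFM y hy)
  have hinj : Set.InjOn (fun y => P.p j (nf y + 1)) F := by
    intro y hy y' hy' he
    have h1 := (P.inj j (nf y + 1) j (nf y' + 1) (hlt y hy) (hlt y' hy') he).2
    rw [← hpF y hy, ← hpF y' hy']
    congr 1
    omega
  obtain ⟨u, hu, v, hv, huv, hD⟩ : ∃ u ∈ F.image (fun y => P.p j (nf y + 1)),
      ∃ v ∈ F.image (fun y => P.p j (nf y + 1)), u ≠ v ∧ D u v := by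
    by_contra hcon
    push Not at hcon
    have h1 := hα (F.image fun y => P.p j (nf y + 1)) hcon
    rw [Finset.card_image_of_injOn hinj] at h1
    omega
  obtain ⟨y, hy, rfl⟩ := Finset.mem_image.1 hu
  obtain ⟨y', hy', rfl⟩ := Finset.mem_image.1 hv
  have hnn : nf y ≠ nf y' := fun h => huv (by simp only [h])
  rcases lt_or_gt_of_ne hnn with h | h
  · rcases eq_or_ne (nf y + 1) (nf y') with he | he
    · refine split_path D L M H k hLM hMH hLH P j (nf y) (nf y') h (hlt y' hy').le
        (by rw [hpF y hy]; exact hFM y hy) (by rw [hpF y' hy']; exact hFM y' hy') ?_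
      rw [he]
    · obtain ⟨P', hP'⟩ := shortcut D H L k P j (nf y + 1) (nf y' + 1) (by omega) (hlt y' hy') hD
      refine hfree P' ⟨y', hFM y' hy', fun i n hn hcon => ?_⟩
      obtain ⟨m, hm, hPm, hor⟩ := hP' i n hn
      rw [hPm, ← hpF y' hy'] at hcon
      obtain ⟨h1, h2⟩ := P.inj i m j (nf y') hm (hlt y' hy').le hcon
      rcases hor h1 with h3 | h3 <;> omega
  · refine split_path D L M H k hLM hMH hLH P j (nf y') (nf y) h (hlt y hy).le
      (by rw [hpF y' hy']; exact hFM y' hy') (by rw [hpF y hy]; exact hFM y hy) ?_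
    refine ReflTransGen.tail (ReflTransGen.single ⟨P.step j (nf y) (hlt y hy), nf y + 1, by omega,
      hlt y hy, rfl⟩) ⟨hD, nf y' + 1, by omega, hlt y' hy', rfl⟩

end Pool.Agent.W895653
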