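import Pool.Agent.W_895653_h19.Defs

/-!
# MP_895653_co: the tournaments `T n k` (arc `u → v` if `v < u ≤ v + k` or `v > u + k`) are `k`-strong
-/

set_option autoImplicit false

open Relation

namespace Pool.Agent.W895653

/-- The tournament on `Fin n`: for `i < j` the arc goes from `j` down to `i` if `j - i ≤ k`, and from `i` up to `j`
if `j - i > k`. -/
def TT (n k : ℕ) (u v : Fin n) : Prop :=
  ((v : ℕ) < u ∧ (u : ℕ) ≤ v + k) ∨ (u : ℕ) + k < v

/-- `TT n k` is a tournament for `k ≥ 1`... (for all `k`). -/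
theorem TT_irrefl (n k : ℕ) (v : Fin n) : ¬ TT n k v v := by
  unfold TT
  omega

theorem TT_tour (n k : ℕ) (u v : Fin n) (h : u ≠ v) : TT n k u v ↔ ¬ TT n k v u := by
  have h' : (u : ℕ) ≠ v := fun e => h (Fin.ext e)
  unfold TT
  omega

/-- `TT n k` is `k`-strong for `n ≥ 3 k`, `k ≥ 1`.

Proof. Let `S` have at most `k - 1` elements and `u, v ∉ S`.
(Down) if `v < u` there is a path from `u` to `v` avoiding `S`: strong induction on `u - v`: if `u ≤ v + k` it is
an arc; otherwise one of the `k` numbers `u - 1, ..., u - k` (all `> v`... `≥ v + 1 - 1`, indeed `u - k > v`) is not in `S`;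
go there and use induction.
(Up) if `u < v`: if `u + k < v` it is an arc. Otherwise `v ≤ u + k`. The set
`W = {w | w + k < v} ∪ {w | u + k < w}` has at least `k` elements (count: `(v - k) + (n - 1 - k - u)` in truncated
subtraction, which is `≥ k` because `n ≥ 3 k` and `u < v ≤ u + k`), so some `w ∈ W`, `w ∉ S`. If `u + k < w`: arc
`u → w`, then (Down) from `w` to `v` (`w > u + k ≥ v`). If `w + k < v`: (Down) from `u` to `w` (`w < v - k ≤ u`),
then the arc `w → v`. -/
theorem TT_kstrong (n k : ℕ) (hk : 1 ≤ k) (hn : 3 * k ≤ n) : KStrong (TT n k) k := by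
  classical
  refine ⟨by rw [Fintype.card_fin]; omega, fun S hS => ?_⟩
  have down : ∀ v : Fin n, v ∉ S → ∀ d : ℕ, ∀ u : Fin n, (u : ℕ) = d → (v : ℕ) ≤ u →
      Relation.ReflTransGen (fun a b => TT n k a b ∧ b ∈ {v | v ∉ S}) u v := by
    intro v hv d
    induction d using Nat.strong_induction_on with
    | _ d ih =>
      intro u hu hvu
      by_cases h1 : (u : ℕ) = v
      · rw [Fin.ext h1]
      by_cases h2 : (u : ℕ) ≤ v + k
      · exact Relation.ReflTransGen.single ⟨Or.inl ⟨by omega, h2⟩, hv⟩
      · have hlt : (u : ℕ) - k < n := by omega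
        have hcard : (Finset.Ico (⟨(u : ℕ) - k, hlt⟩ : Fin n) u).card = k := by
          rw [Fin.card_Ico]
          show (u : ℕ) - ((u : ℕ) - k) = k
          omega
        obtain ⟨w, hw, hwS⟩ := Finset.exists_mem_notMem_of_card_lt_card
          (s := S) (t := Finset.Ico (⟨(u : ℕ) - k, hlt⟩ : Fin n) u) (by omega)
        rw [Finset.mem_Ico, Fin.le_def, Fin.lt_def] at hw
        have hw1 : (u : ℕ) - k ≤ w := hw.1
        have hw2 : (w : ℕ) < u := hw.2
        exact Relation.ReflTransGen.head ⟨Or.inl ⟨hw2, by omega⟩, hwS⟩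
          (ih w (by omega) w rfl (by omega))
  intro u hu v hv
  by_cases huv : (v : ℕ) ≤ u
  · exact down v hv u u rfl huv
  by_cases h1 : (u : ℕ) + k < v
  · exact Relation.ReflTransGen.single ⟨Or.inr h1, hv⟩
  have hT : S.card < (Finset.univ.filter fun w : Fin n =>
      (w : ℕ) + k < v ∨ (u : ℕ) + k < w).card := by
    have e1 := Finset.card_filter_add_card_filter_not (s := (Finset.univ : Finset (Fin n)))
      (fun w : Fin n => (w : ℕ) + k < v ∨ (u : ℕ) + k < w)
    rw [Finset.card_univ, Fintype.card_fin] at e1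
    have e2 : (Finset.univ.filter fun w : Fin n =>
        ¬ ((w : ℕ) + k < v ∨ (u : ℕ) + k < w)).card ≤ 2 * k := by
      have e3 : ((Finset.univ.filter fun w : Fin n =>
          ¬ ((w : ℕ) + k < v ∨ (u : ℕ) + k < w)).map Fin.valEmbedding) ⊆
          Finset.Icc ((v : ℕ) - k) (u + k) := by
        intro x hx
        rw [Finset.mem_map] at hx
        obtain ⟨w, hw, rfl⟩ := hx
        rw [Finset.mem_filter] at hw
        have hw2 := hw.2
        rw [Finset.mem_Icc, Fin.valEmbedding_apply]
        omega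
      have e4 := Finset.card_le_card e3
      rw [Finset.card_map, Nat.card_Icc] at e4
      omega
    omega
  obtain ⟨w, hw, hwS⟩ := Finset.exists_mem_notMem_of_card_lt_card hT
  rw [Finset.mem_filter] at hw
  rcases hw.2 with h2 | h2
  · exact (down w hwS u u rfl (by omega)).trans
      (Relation.ReflTransGen.single ⟨Or.inr h2, hv⟩)
  · exact Relation.ReflTransGen.head ⟨Or.inr h2, hwS⟩ (down v hv w w rfl (by omega))

end Pool.Agent.W895653
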