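import Pool.Agent.W_895653_h19.LowA

/-!
# MP_895653_co: `T n k` has no strong complete minor on `k + 2` vertices
-/

set_option autoImplicit false

open Relation

namespace Pool.Agent.W895653

/-- Proof. Suppose `X 0, ..., X (k + 1)` is such a minor. All `X i` are finite and nonempty; let `M i` be the
largest element of `X i` and let `i₀` be an index with `p = M i₀` minimal. Claim: for every `j ≠ i₀` the set `X j`
has an element `u` with `p < u ≤ p + k`. Since `X j` is disjoint from `X i₀`, `p ∉ X j` and `M j > p`.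
If some `v ∈ X j` has `v < p`: by `StrongOn` there is a path inside `X j` from `M j > p` to `v < p`, so it has an arc
`x → y` with `x > p`, `y < p` (as `p ∉ X j`), and an arc going down has `x ≤ y + k < p + k`: `u = x`. (Formally:
induction on the `ReflTransGen` with the invariant `start > p` and: either the current vertex is `> p` or there is
`u ∈ X j` with `p < u ≤ p + k`.)
If all elements of `X j` are `> p`: there is an arc `x → y` with `x ∈ X j`, `y ∈ X i₀`, `y ≤ p < x`, so it goes
down and `x ≤ y + k ≤ p + k`: `u = x`.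
The `k + 1` sets `X j`, `j ≠ i₀`, are disjoint, so this gives `k + 1` different numbers in `(p, p + k]`:
contradiction (injection from `{j // j ≠ i₀}` to `Finset.Ioc p (p + k)`). -/
theorem TT_no_minor (n k : ℕ) : ¬ StrongMinor (TT n k) (k + 2) := by
  rintro ⟨X, hne, hdis, hst, harc⟩
  have hM : ∀ i, ∃ m ∈ X i, ∀ x ∈ X i, x ≤ m := fun i =>
    Set.exists_max_image (X i) id (Set.toFinite _) (hne i)
  choose M hMX hMmax using hM
  obtain ⟨i₀, hi₀⟩ := Finite.exists_min M
  have hclaim : ∀ j, j ≠ i₀ → ∃ u ∈ X j, ((M i₀ : Fin n) : ℕ) < (u : ℕ) ∧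
      (u : ℕ) ≤ (M i₀ : ℕ) + k := by
    intro j hj
    have hpj : M i₀ ∉ X j := fun h =>
      Set.disjoint_left.1 (hdis j i₀ hj) h (hMX i₀)
    have hne' : ∀ w ∈ X j, (w : ℕ) ≠ (M i₀ : ℕ) := fun w hw e =>
      hpj (by rwa [← Fin.ext e])
    have hMj : ((M i₀ : Fin n) : ℕ) < (M j : ℕ) :=
      lt_of_le_of_ne (hi₀ j) (fun e => hne' _ (hMX j) e.symm)
    by_cases hv : ∃ v ∈ X j, (v : ℕ) < (M i₀ : ℕ)
    · obtain ⟨v, hvX, hvp⟩ := hv
      have hinv : ∀ w, ReflTransGen (fun a b => TT n k a b ∧ b ∈ X j) (M j) w →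
          w ∈ X j ∧ (((M i₀ : Fin n) : ℕ) < (w : ℕ) ∨ ∃ u ∈ X j, ((M i₀ : Fin n) : ℕ) < (u : ℕ) ∧
            (u : ℕ) ≤ (M i₀ : ℕ) + k) := by
        intro w hw
        induction hw with
        | refl => exact ⟨hMX j, Or.inl hMj⟩
        | @tail b c _ hbc ih =>
          refine ⟨hbc.2, ?_⟩
          rcases ih with ⟨hb, hpb | hu⟩
          · have hc := hne' c hbc.2
            by_cases hpc : ((M i₀ : Fin n) : ℕ) < (c : ℕ)
            · exact Or.inl hpc
            · refine Or.inr ⟨b, hb, hpb, ?_⟩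
              have h1 := hbc.1
              unfold TT at h1
              omega
          · exact Or.inr hu
      rcases (hinv v (hst j (M j) (hMX j) v hvX)).2 with h | h
      · omega
      · exact h
    · obtain ⟨x, hx, y, hy, hxy⟩ := harc j i₀ hj
      have h1 : (y : ℕ) ≤ (M i₀ : ℕ) := hMmax i₀ y hy
      have h2 := hne' x hx
      have h3 : ¬ (x : ℕ) < (M i₀ : ℕ) := fun h => hv ⟨x, hx, h⟩
      refine ⟨x, hx, by omega, ?_⟩
      unfold TT at hxy
      omega
  have hclaim' : ∀ j, ∃ u : Fin n, j ≠ i₀ → (u ∈ X j ∧ ((M i₀ : Fin n) : ℕ) < (u : ℕ) ∧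
      (u : ℕ) ≤ (M i₀ : ℕ) + k) := by
    intro j
    by_cases hj : j = i₀
    · exact ⟨M j, fun h => absurd hj h⟩
    · obtain ⟨u, h1, h2, h3⟩ := hclaim j hj
      exact ⟨u, fun _ => ⟨h1, h2, h3⟩⟩
  choose u hu using hclaim'
  have huX := fun j hj => (hu j hj).1
  have hu1 := fun j hj => (hu j hj).2.1
  have hu2 := fun j hj => (hu j hj).2.2
  have hcard := Finset.card_le_card_of_injOn (s := Finset.univ.erase i₀)
    (t := Finset.Ioc ((M i₀ : Fin n) : ℕ) ((M i₀ : ℕ) + k)) (fun j => ((u j : Fin n) : ℕ))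
    (by
      intro j hj
      have hj' : j ≠ i₀ := Finset.ne_of_mem_erase hj
      simp only [Finset.coe_Ioc, Set.mem_Ioc]
      exact ⟨hu1 j hj', hu2 j hj'⟩)
    (by
      intro j hj j' hj' e
      have h1 : j ≠ i₀ := Finset.ne_of_mem_erase hj
      have h2 : j' ≠ i₀ := Finset.ne_of_mem_erase hj'
      by_contra hne2
      have e' : u j = u j' := Fin.ext e
      exact Set.disjoint_left.1 (hdis j j' hne2) (huX j h1) (by rw [e']; exact huX j' h2))
  rw [Finset.card_erase_of_mem (Finset.mem_univ _), Finset.card_univ, Fintype.card_fin,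
    Nat.card_Ioc] at hcard
  omega

end Pool.Agent.W895653
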