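import Pool.Agent.W_895653_h19.Defs

/-!
# MP_895653_co: one-way complete pairs in large semicomplete digraphs, bipartite Ramsey
-/

set_option autoImplicit false

open Finset

namespace Pool.Agent.W895653

private theorem oneway_aux {V : Type} [DecidableEq V] (D : V → V → Prop) (M : ℕ) :
    ∀ (s a b : ℕ), a + b ≤ s → ∀ X : Finset V, 2 ^ s * (M + 1) ≤ X.card + 1 →
      (∀ u ∈ X, ∀ v ∈ X, u ≠ v → D u v ∨ D v u) →
      (∃ A Z : Finset V, A ⊆ X ∧ Z ⊆ X ∧ Disjoint A Z ∧ A.card = a ∧ M ≤ Z.card ∧
        ∀ x ∈ A, ∀ y ∈ Z, D x y) ∨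
      (∃ B Z : Finset V, B ⊆ X ∧ Z ⊆ X ∧ Disjoint B Z ∧ B.card = b ∧ M ≤ Z.card ∧
        ∀ x ∈ Z, ∀ y ∈ B, D x y) := by
  classical
  intro s
  induction s with
  | zero =>
    intro a b hab X hX hsc
    left
    refine ⟨∅, X, by simp, subset_rfl, by simp, by simp; omega, by simp at hX; omega, by simp⟩
  | succ s ih =>
    intro a b hab X hX hsc
    have hpos : 1 ≤ 2 ^ s := Nat.one_le_two_pow
    have hX2 : 2 * (2 ^ s * (M + 1)) ≤ X.card + 1 := by
      rw [pow_succ] at hX
      calc 2 * (2 ^ s * (M + 1)) = 2 ^ s * 2 * (M + 1) := by ring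
        _ ≤ _ := hX
    have hMle : M + 1 ≤ 2 ^ s * (M + 1) := Nat.le_mul_of_pos_left _ (by omega)
    rcases Nat.eq_zero_or_pos a with ha | ha
    · left
      exact ⟨∅, X, by simp, subset_rfl, by simp, by simp [ha], by omega, by simp⟩
    rcases Nat.eq_zero_or_pos b with hb | hb
    · right
      exact ⟨∅, X, by simp, subset_rfl, by simp, by simp [hb], by omega, by simp⟩
    have hne : X.Nonempty := by
      rw [← Finset.card_pos]
      omega
    obtain ⟨v, hv⟩ := hne
    set O := (X.erase v).filter (fun y => D v y) with hO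
    set I := (X.erase v).filter (fun y => D y v) with hI
    have hOX : O ⊆ X := (Finset.filter_subset _ _).trans (Finset.erase_subset _ _)
    have hIX : I ⊆ X := (Finset.filter_subset _ _).trans (Finset.erase_subset _ _)
    have hcov : X.erase v ⊆ O ∪ I := by
      intro y hy
      have hyX := Finset.mem_of_mem_erase hy
      have hyv := Finset.ne_of_mem_erase hy
      rcases hsc v hv y hyX hyv.symm with h | h
      · exact Finset.mem_union_left _ (Finset.mem_filter.2 ⟨hy, h⟩)
      · exact Finset.mem_union_right _ (Finset.mem_filter.2 ⟨hy, h⟩)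
    have hcard : X.card ≤ O.card + I.card + 1 := by
      have h1 := Finset.card_le_card hcov
      have h2 := Finset.card_union_le O I
      have h3 := Finset.card_erase_of_mem hv
      omega
    rcases le_or_gt (2 ^ s * (M + 1)) (O.card + 1) with hbig | hsmall
    · have hsc' : ∀ u ∈ O, ∀ w ∈ O, u ≠ w → D u w ∨ D w u :=
        fun u hu w hw => hsc u (hOX hu) w (hOX hw)
      rcases ih (a - 1) b (by omega) O hbig hsc' with
        ⟨A, Z, hA, hZ, hd, hAc, hM, hD⟩ | ⟨B, Z, hB, hZ, hd, hBc, hM, hD⟩
      · left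
        have hvA : v ∉ A := by
          intro h
          have := hA h
          rw [hO, Finset.mem_filter] at this
          exact (Finset.notMem_erase v X) this.1
        have hvZ : v ∉ Z := by
          intro h
          have := hZ h
          rw [hO, Finset.mem_filter] at this
          exact (Finset.notMem_erase v X) this.1
        refine ⟨insert v A, Z, ?_, hZ.trans hOX, ?_, ?_, hM, ?_⟩
        · exact Finset.insert_subset hv (hA.trans hOX)
        · rw [Finset.disjoint_insert_left]
          exact ⟨hvZ, hd⟩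
        · rw [Finset.card_insert_of_notMem hvA, hAc]
          omega
        · intro x hx y hy
          rcases Finset.mem_insert.1 hx with rfl | hx
          · have := hZ hy
            rw [hO, Finset.mem_filter] at this
            exact this.2
          · exact hD x hx y hy
      · right
        exact ⟨B, Z, hB.trans hOX, hZ.trans hOX, hd, hBc, hM, hD⟩
    · have hbig : 2 ^ s * (M + 1) ≤ I.card + 1 := by omega
      have hsc' : ∀ u ∈ I, ∀ w ∈ I, u ≠ w → D u w ∨ D w u :=
        fun u hu w hw => hsc u (hIX hu) w (hIX hw)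
      rcases ih a (b - 1) (by omega) I hbig hsc' with
        ⟨A, Z, hA, hZ, hd, hAc, hM, hD⟩ | ⟨B, Z, hB, hZ, hd, hBc, hM, hD⟩
      · left
        exact ⟨A, Z, hA.trans hIX, hZ.trans hIX, hd, hAc, hM, hD⟩
      · right
        have hvB : v ∉ B := by
          intro h
          have := hB h
          rw [hI, Finset.mem_filter] at this
          exact (Finset.notMem_erase v X) this.1
        have hvZ : v ∉ Z := by
          intro h
          have := hZ h
          rw [hI, Finset.mem_filter] at this
          exact (Finset.notMem_erase v X) this.1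
        refine ⟨insert v B, Z, ?_, hZ.trans hIX, ?_, ?_, hM, ?_⟩
        · exact Finset.insert_subset hv (hB.trans hIX)
        · rw [Finset.disjoint_insert_left]
          exact ⟨hvZ, hd⟩
        · rw [Finset.card_insert_of_notMem hvB, hBc]
          omega
        · intro x hx y hy
          rcases Finset.mem_insert.1 hy with rfl | hy
          · have := hZ hx
            rw [hI, Finset.mem_filter] at this
            exact this.2
          · exact hD x hx y hy

/-- A large set of vertices, any two of them adjacent in at least one direction, contains disjoint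
`A`, `B` of prescribed sizes with all arcs from `A` to `B`.

Proof. First: if `2 ^ m ≤ X.card` there is a list `l` of length `m` of elements of `X` with
`l.Pairwise D` and `l.Nodup` (induction on `m`: some `v ∈ X` has at least `(X.card - 1) / 2 ≥ 2 ^ (m-1) - 1 / 2`,
that is at least `2 ^ (m - 1)` ... out-neighbours in `X`; for the counting: the sum over `v ∈ X` of the number of
out-neighbours plus the number of in-neighbours is at least `X.card * (X.card - 1)`; with a weaker bound
`2 ^ m` one may also argue: take any `v ∈ X`; either the out-neighbours or the in-neighbours of `v` in `X` are at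
least half of `X \ {v}`; so by induction on the number of steps one gets a sequence of `2 m` vertices in which
every vertex either dominates all later ones or is dominated by all later ones; hence the bound `4 ^ (a+b)`
used here is comfortable: choose `m` indices of one type; if all are of the second type reverse the list).
Then `A` = first `a` entries, `B` = last `b` entries. -/
theorem oneway {V : Type} [DecidableEq V] (D : V → V → Prop) (a b : ℕ) (X : Finset V)
    (hX : 4 ^ (a + b + 1) ≤ X.card) (hsc : ∀ u ∈ X, ∀ v ∈ X, u ≠ v → D u v ∨ D v u) :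
    ∃ A B : Finset V, A ⊆ X ∧ B ⊆ X ∧ A.card = a ∧ B.card = b ∧ Disjoint A B ∧
      ∀ x ∈ A, ∀ y ∈ B, D x y := by
  classical
  have h0 : 2 ^ (a + b) * (a + b + 1) ≤ X.card + 1 := by
    have h1 : a + b + 1 ≤ 2 ^ (a + b + 1) := Nat.lt_two_pow_self.le
    have h2 : 2 ^ (a + b) * (a + b + 1) ≤ 2 ^ (a + b) * 2 ^ (a + b + 1) :=
      Nat.mul_le_mul_left _ h1
    have h3 : 2 ^ (a + b) * 2 ^ (a + b + 1) ≤ 4 ^ (a + b + 1) := by
      have : (4 : ℕ) = 2 ^ 2 := by norm_num
      rw [this, ← pow_mul, ← pow_add]
      exact Nat.pow_le_pow_right (by norm_num) (by omega)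
    omega
  rcases oneway_aux D (a + b) (a + b) a b le_rfl X h0 hsc with
    ⟨A, Z, hA, hZ, hd, hAc, hM, hD⟩ | ⟨B, Z, hB, hZ, hd, hBc, hM, hD⟩
  · obtain ⟨B, hBZ, hBc⟩ := Finset.exists_subset_card_eq (show b ≤ Z.card by omega)
    exact ⟨A, B, hA, hBZ.trans hZ, hAc, hBc, hd.mono_right hBZ,
      fun x hx y hy => hD x hx y (hBZ hy)⟩
  · obtain ⟨A, hAZ, hAc⟩ := Finset.exists_subset_card_eq (show a ≤ Z.card by omega)
    exact ⟨A, B, hAZ.trans hZ, hB, hAc, hBc, (hd.mono_right hAZ).symm,
      fun x hx y hy => hD x (hAZ hx) y hy⟩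

/-- Bipartite Ramsey. Proof. `N = r * 2 ^ (2 * r + 2)` (any such number, `+ 1` if convenient). Choose `B₁ ⊆ B₀`
with `2 * r` elements. For `a ∈ A₀` let `T a = {b ∈ B₁ | D a b}`. There are at most `2 ^ (2 r)` sets `T a`, so
(pigeonhole) at least `r` elements `a` of `A₀` have the same `T a = T`. If `r ≤ T.card` take `A` = these `a`'s and
`B` ⊆ `T`. Otherwise `r ≤ (B₁ \ T).card` and all `b ∈ B₁ \ T` satisfy `D b a`, so take `A` ⊆ `B₁ \ T` and
`B` = these `a`'s. -/
theorem bip (r : ℕ) : ∃ N : ℕ, ∀ (V : Type) [DecidableEq V] (D : V → V → Prop) (A0 B0 : Finset V),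
    Disjoint A0 B0 → N ≤ A0.card → N ≤ B0.card → (∀ a ∈ A0, ∀ b ∈ B0, D a b ∨ D b a) →
    ∃ A B : Finset V, Disjoint A B ∧ A.card = r ∧ B.card = r ∧ ∀ a ∈ A, ∀ b ∈ B, D a b := by
  classical
  refine ⟨r * 2 ^ (2 * r + 2), ?_⟩
  intro V _ D A0 B0 hdisj hA0 hB0 hD
  have h4 : 2 ^ (2 * r + 2) = 4 * 2 ^ (2 * r) := by rw [pow_add]; ring
  have hpow : 1 ≤ 2 ^ (2 * r) := Nat.one_le_two_pow
  have hr : r * 1 ≤ r * 2 ^ (2 * r) := Nat.mul_le_mul_left _ hpow
  have hN : r * 2 ^ (2 * r + 2) = 4 * (r * 2 ^ (2 * r)) := by rw [h4]; ring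
  obtain ⟨B1, hB1, hB1c⟩ := Finset.exists_subset_card_eq (show 2 * r ≤ B0.card by omega)
  have hmaps : ∀ a ∈ A0, B1.filter (fun b => D a b) ∈ B1.powerset :=
    fun a _ => Finset.mem_powerset.2 (Finset.filter_subset _ _)
  obtain ⟨T, hT, hTc⟩ := Finset.exists_le_card_fiber_of_mul_le_card_of_maps_to
    (s := A0) (t := B1.powerset) (n := r) hmaps ⟨∅, by simp⟩ (by
      rw [Finset.card_powerset, hB1c]
      have : 2 ^ (2 * r) * r = r * 2 ^ (2 * r) := Nat.mul_comm _ _
      omega)
  obtain ⟨A1, hA1, hA1c⟩ := Finset.exists_subset_card_eq hTc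
  have hA1A0 : A1 ⊆ A0 := hA1.trans (Finset.filter_subset _ _)
  have hTB1 : T ⊆ B1 := Finset.mem_powerset.1 hT
  have hA1T : ∀ a ∈ A1, B1.filter (fun b => D a b) = T :=
    fun a ha => (Finset.mem_filter.1 (hA1 ha)).2
  rcases le_or_gt r T.card with hrT | hrT
  · obtain ⟨B, hB, hBc⟩ := Finset.exists_subset_card_eq hrT
    refine ⟨A1, B, ?_, hA1c, hBc, ?_⟩
    · exact Disjoint.mono hA1A0 (hB.trans (hTB1.trans hB1)) hdisj
    · intro a ha b hb
      have := hB hb
      rw [← hA1T a ha, Finset.mem_filter] at this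
      exact this.2
  · have hc : r ≤ (B1 \ T).card := by
      rw [Finset.card_sdiff_of_subset hTB1]
      omega
    obtain ⟨A, hA, hAc⟩ := Finset.exists_subset_card_eq hc
    refine ⟨A, A1, ?_, hAc, hA1c, ?_⟩
    · exact (Disjoint.mono hA1A0 (hA.trans (Finset.sdiff_subset.trans hB1)) hdisj).symm
    · intro b hb a ha
      have hb' := Finset.mem_sdiff.1 (hA hb)
      rcases hD a (hA1A0 ha) b (hB1 hb'.1) with h | h
      · exfalso
        apply hb'.2
        rw [← hA1T a ha, Finset.mem_filter]
        exact ⟨hb'.1, h⟩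
      · exact h

end Pool.Agent.W895653
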