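import Pool.Agent.W_895653_h19.Defs

/-!
# MP_895653_co: Ramsey's theorem (independent set or clique), multipartite digraphs
-/

set_option autoImplicit false

open Finset

namespace Pool.Agent.W895653

/-- Ramsey's theorem for graphs (finite, two colours). Proof: Erdos-Szekeres, induction on `s + m`: for
`s = 0` or `m = 0` take the empty set; otherwise `N (s, m) = N (s - 1, m) + N (s, m - 1) + 1`: pick `v ∈ X`, and
look at the neighbours and the non-neighbours of `v` in `X` (other than `v`). -/
theorem ramsey (s m : ℕ) : ∃ N : ℕ, ∀ (V : Type) [DecidableEq V] (E : V → V → Prop)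
    (_ : ∀ u v, E u v → E v u) (X : Finset V), N ≤ X.card →
    (∃ I : Finset V, I ⊆ X ∧ I.card = s ∧ ∀ u ∈ I, ∀ v ∈ I, u ≠ v → ¬ E u v) ∨
    (∃ Y : Finset V, Y ⊆ X ∧ Y.card = m ∧ ∀ u ∈ Y, ∀ v ∈ Y, u ≠ v → E u v) := by
  classical
  revert m
  induction s with
  | zero =>
    intro m
    exact ⟨0, fun V _ E _ X _ => Or.inl ⟨∅, by simp, by simp, by simp⟩⟩
  | succ s ihs =>
    intro m
    induction m with
    | zero => exact ⟨0, fun V _ E _ X _ => Or.inr ⟨∅, by simp, by simp, by simp⟩⟩
    | succ m ihm =>
      obtain ⟨N1, h1⟩ := ihs (m + 1)
      obtain ⟨N2, h2⟩ := ihm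
      refine ⟨N1 + N2 + 1, fun V _ E hE X hX => ?_⟩
      have hne : X.Nonempty := by
        rw [← Finset.card_pos]
        omega
      obtain ⟨v, hv⟩ := hne
      have hsum : ((X.erase v).filter (fun u => E v u)).card +
          ((X.erase v).filter (fun u => ¬ E v u)).card = (X.erase v).card := by
        have := Finset.card_filter_add_card_filter_not (s := X.erase v) (fun u => E v u)
        convert this using 2
      rw [Finset.card_erase_of_mem hv] at hsum
      have hAX : ∀ u, u ∈ X.erase v → u ∈ X := fun u hu => Finset.mem_of_mem_erase hu
      rcases Nat.lt_or_ge ((X.erase v).filter (fun u => ¬ E v u)).card N1 with hlt | hge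
      · have hA : N2 ≤ ((X.erase v).filter (fun u => E v u)).card := by omega
        rcases h2 V E hE _ hA with ⟨I, hI1, hI2, hI3⟩ | ⟨Y, hY1, hY2, hY3⟩
        · exact Or.inl ⟨I, fun u hu => hAX u (Finset.mem_filter.1 (hI1 hu)).1, hI2, hI3⟩
        · have hvY : v ∉ Y := fun h => (Finset.mem_erase.1 (Finset.mem_filter.1 (hY1 h)).1).1 rfl
          refine Or.inr ⟨insert v Y, ?_, ?_, ?_⟩
          · intro u hu
            rcases Finset.mem_insert.1 hu with rfl | hu
            · exact hv
            · exact hAX u (Finset.mem_filter.1 (hY1 hu)).1
          · rw [Finset.card_insert_of_notMem hvY, hY2]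
          · intro u hu w hw huw
            rcases Finset.mem_insert.1 hu with hu' | hu'
            · rcases Finset.mem_insert.1 hw with hw' | hw'
              · exact absurd (hu'.trans hw'.symm) huw
              · rw [hu']
                exact (Finset.mem_filter.1 (hY1 hw')).2
            · rcases Finset.mem_insert.1 hw with hw' | hw'
              · rw [hw']
                exact hE _ _ (Finset.mem_filter.1 (hY1 hu')).2
              · exact hY3 u hu' w hw' huw
      · rcases h1 V E hE _ hge with ⟨I, hI1, hI2, hI3⟩ | ⟨Y, hY1, hY2, hY3⟩
        · have hvI : v ∉ I := fun h => (Finset.mem_erase.1 (Finset.mem_filter.1 (hI1 h)).1).1 rfl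
          refine Or.inl ⟨insert v I, ?_, ?_, ?_⟩
          · intro u hu
            rcases Finset.mem_insert.1 hu with rfl | hu
            · exact hv
            · exact hAX u (Finset.mem_filter.1 (hI1 hu)).1
          · rw [Finset.card_insert_of_notMem hvI, hI2]
          · intro u hu w hw huw
            rcases Finset.mem_insert.1 hu with hu' | hu'
            · rcases Finset.mem_insert.1 hw with hw' | hw'
              · exact absurd (hu'.trans hw'.symm) huw
              · rw [hu']
                exact (Finset.mem_filter.1 (hI1 hw')).2
            · rcases Finset.mem_insert.1 hw with hw' | hw'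
              · rw [hw']
                exact fun h => (Finset.mem_filter.1 (hI1 hu')).2 (hE _ _ h)
              · exact hI3 u hu' w hw' huw
        · exact Or.inr ⟨Y, fun u hu => hAX u (Finset.mem_filter.1 (hY1 hu)).1, hY2, hY3⟩

/-- Two large sets of different classes in a highly connected multipartite digraph (`c` = class of a vertex,
no arcs inside a class).

Proof. Put `C j = {v | c v = j}`.
Case 1: some class `C j` has at least `N + 1` elements (so at least two if `N ≥ 1`; for `N = 0` take `A = B = ∅`).
Then `V \ C j` has at least `N` elements: otherwise delete `S = V \ C j` (`S.card ≤ N - 1`, so `S.card + 1 ≤ 3 N + 2`);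
the rest `C j` has two distinct vertices and no arcs, so it is not strongly connected: contradiction with `KStrong`.
Take `A = C j`, `B = V \ C j`.
Case 2: all classes have at most `N` elements. `V` has at least `3 N + 3` elements. Let `j` be the least natural
number such that `U = {v | c v < j}` has at least `N` elements; then `U.card ≤ 2 N` (the elements with
`c v < j - 1` are fewer than `N`, the class `j - 1` has at most `N`), and the complement has at least `N`.
Take `A = U`, `B = V \ U`. -/
theorem multi_biclique (N : ℕ) {V : Type} [Fintype V] [DecidableEq V] (D : V → V → Prop) (c : V → ℕ)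
    (h0 : ∀ u v, c u = c v → ¬ D u v) (hk : KStrong D (3 * N + 2)) :
    ∃ A B : Finset V, Disjoint A B ∧ N ≤ A.card ∧ N ≤ B.card ∧ ∀ a ∈ A, ∀ b ∈ B, c a ≠ c b := by
  classical
  rcases Nat.eq_zero_or_pos N with hN | hN
  · subst hN
    exact ⟨∅, ∅, by simp, by simp, by simp, by simp⟩
  by_cases hbig : ∃ j, N + 1 ≤ (Finset.univ.filter (fun v => c v = j)).card
  · obtain ⟨j, hj⟩ := hbig
    refine ⟨Finset.univ.filter (fun v => c v = j), Finset.univ.filter (fun v => ¬ c v = j),
      Finset.disjoint_filter_filter_not _ _ _, by omega, ?_, ?_⟩
    · by_contra hlt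
      have hlt' : (Finset.univ.filter (fun v => ¬ c v = j)).card < N := by omega
      have hst := hk.2 (Finset.univ.filter (fun v => ¬ c v = j)) (by omega)
      obtain ⟨u, hu, v, hv, huv⟩ := Finset.one_lt_card.1 (show
        1 < (Finset.univ.filter (fun v => c v = j)).card by omega)
      have hu' : c u = j := (Finset.mem_filter.1 hu).2
      have hv' : c v = j := (Finset.mem_filter.1 hv).2
      have hpath := hst u (by simp [hu']) v (by simp [hv'])
      rcases Relation.ReflTransGen.cases_head hpath with h | ⟨w, ⟨hw1, hw2⟩, _⟩
      · exact huv h
      · have hw' : c w = j := by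
          by_contra hne
          exact hw2 (Finset.mem_filter.2 ⟨Finset.mem_univ _, hne⟩)
        exact h0 u w (hu'.trans hw'.symm) hw1
    · intro a ha b hb hab
      exact (Finset.mem_filter.1 hb).2 (hab.symm.trans (Finset.mem_filter.1 ha).2)
  · push Not at hbig
    have hex : ∃ j, N ≤ (Finset.univ.filter (fun v => c v < j)).card := by
      refine ⟨(Finset.univ.sup c) + 1, ?_⟩
      have : (Finset.univ.filter (fun v => c v < (Finset.univ.sup c) + 1)) = Finset.univ := by
        ext v
        simp only [Finset.mem_filter, Finset.mem_univ, true_and, iff_true]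
        exact Nat.lt_succ_of_le (Finset.le_sup (f := c) (Finset.mem_univ v))
      rw [this, Finset.card_univ]
      have := hk.1
      omega
    have hj := Nat.find_spec hex
    have hmin := fun m (hm : m < Nat.find hex) => Nat.find_min hex hm
    generalize Nat.find hex = j at hj hmin
    have hU : (Finset.univ.filter (fun v => c v < j)).card ≤ 2 * N := by
      rcases j with _ | j
      · simp
      · have h1 := hmin j (Nat.lt_succ_self j)
        have h2 := hbig j
        have h3 : (Finset.univ.filter (fun v => c v < j + 1)) =
            (Finset.univ.filter (fun v => c v < j)) ∪ (Finset.univ.filter (fun v => c v = j)) := by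
          ext v
          simp only [Finset.mem_filter, Finset.mem_univ, true_and, Finset.mem_union]
          omega
        rw [h3]
        refine le_trans (Finset.card_union_le _ _) ?_
        omega
    refine ⟨Finset.univ.filter (fun v => c v < j), Finset.univ.filter (fun v => ¬ c v < j),
      Finset.disjoint_filter_filter_not _ _ _, hj, ?_, ?_⟩
    · have hsum := Finset.card_filter_add_card_filter_not (s := (Finset.univ : Finset V))
        (fun v => c v < j)
      have hV := hk.1
      rw [Finset.card_univ] at hsum
      omega
    · intro a ha b hb hab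
      have h1 := (Finset.mem_filter.1 ha).2
      have h2 := (Finset.mem_filter.1 hb).2
      omega

end Pool.Agent.W895653
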