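import Pool.Agent.W_895653_h19.Key
import Pool.Agent.W_895653_h19.MengerB
import Pool.Agent.W_895653_h19.RamA
import Pool.Agent.W_895653_h19.RamB
import Pool.Agent.W_895653_h19.LowB

/-!
# MP_895653_co: main theorems
-/

set_option autoImplicit false

open Relation Finset

namespace Pool.Agent.W895653

variable {V : Type}

/-- In a `k`-strong digraph there are `k` disjoint paths between any two sets with at least `k` elements. -/
theorem link_of_kstrong [Fintype V] [DecidableEq V] (D : V → V → Prop) (k : ℕ) (hk : KStrong D k)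
    (A B : Finset V) (hA : k ≤ A.card) (hB : k ≤ B.card) : Nonempty (Lk D A B k) := by
  apply menger_thm
  intro S hS
  obtain ⟨a, ha, haS⟩ : ∃ a ∈ A, a ∉ S := by
    by_contra hcon
    push Not at hcon
    have := Finset.card_le_card (fun x hx => hcon x hx : A ⊆ S)
    omega
  obtain ⟨b, hb, hbS⟩ : ∃ b ∈ B, b ∉ S := by
    by_contra hcon
    push Not at hcon
    have := Finset.card_le_card (fun x hx => hcon x hx : B ⊆ S)
    omega
  exact ⟨a, ha, haS, b, hb, hbS, hk.2 S hS a haS b hbS⟩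

theorem kstrong_mono [Fintype V] (D : V → V → Prop) {k l : ℕ} (hkl : k ≤ l) (h : KStrong D l) :
    KStrong D k := by
  refine ⟨by have := h.1; omega, fun S hS => h.2 S (by omega)⟩

/-- All arcs from `A` to `B`, `|A|, |B| ≥ r`, and `D` is `r`-strong. -/
theorem minor_of_oneway [Fintype V] [DecidableEq V] (D : V → V → Prop) (r : ℕ) (hr : KStrong D r)
    (A B : Finset V) (hA : r ≤ A.card) (hB : r ≤ B.card) (hAB : ∀ a ∈ A, ∀ b ∈ B, D a b) :
    StrongMinor D r := by
  obtain ⟨P⟩ := link_of_kstrong D r hr B A hB hA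
  exact minor_of_link D A B r hAB P

theorem partA (r : ℕ) : ∃ N : ℕ, ∀ (V : Type) [Fintype V] [DecidableEq V] (D : V → V → Prop),
    KStrong D r → (∃ A B : Finset V, Disjoint A B ∧ N ≤ A.card ∧ N ≤ B.card ∧
      ∀ a ∈ A, ∀ b ∈ B, D a b ∨ D b a) → StrongMinor D r := by
  obtain ⟨N, hN⟩ := bip r
  refine ⟨N, fun V _ _ D hD h => ?_⟩
  obtain ⟨A0, B0, hd, hA0, hB0, hadj⟩ := h
  obtain ⟨A, B, _, hA, hB, hAB⟩ := hN V D A0 B0 hd hA0 hB0 hadj
  exact minor_of_oneway D r hD A B hA.ge hB.ge hAB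

theorem partAlpha (r α : ℕ) : ∃ N : ℕ, ∀ (V : Type) [Fintype V] [DecidableEq V] (D : V → V → Prop),
    KStrong D r → N ≤ Fintype.card V →
    (∀ I : Finset V, (∀ u ∈ I, ∀ v ∈ I, u ≠ v → ¬ D u v) → I.card ≤ α) → StrongMinor D r := by
  obtain ⟨N, hN⟩ := ramsey (α + 1) (4 ^ (r + r + 1))
  refine ⟨N, fun V _ _ D hD hV hI => ?_⟩
  rcases hN V (fun u v => D u v ∨ D v u) (fun u v h => h.symm) Finset.univ (by simpa using hV) with
    ⟨I, _, hIc, hI'⟩ | ⟨Y, _, hYc, hY⟩
  · have := hI I (fun u hu v hv huv h => hI' u hu v hv huv (Or.inl h))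
    omega
  · obtain ⟨A, B, _, _, hA, hB, _, hAB⟩ := oneway D r r Y hYc.ge hY
    exact minor_of_oneway D r hD A B hA.ge hB.ge hAB

theorem partMulti (r : ℕ) : ∃ k : ℕ, ∀ (V : Type) [Fintype V] [DecidableEq V] (D : V → V → Prop)
    (c : V → ℕ), (∀ u v, c u = c v → ¬ D u v) → (∀ u v, c u ≠ c v → D u v ∨ D v u) →
    KStrong D k → StrongMinor D r := by
  obtain ⟨N, hN⟩ := partA r
  refine ⟨3 * (max N r) + 2, fun V _ _ D c h0 h1 hk => ?_⟩
  obtain ⟨A, B, hd, hA, hB, hc⟩ := multi_biclique (max N r) D c h0 hk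
  refine hN V D (kstrong_mono D ?_ hk) ⟨A, B, hd, (le_max_left _ _).trans hA,
    (le_max_left _ _).trans hB, fun a ha b hb => h1 a b (hc a ha b hb)⟩
  have := le_max_right N r
  omega

theorem partB (k : ℕ) : ∃ N : ℕ, ∀ (V : Type) [Fintype V] [DecidableEq V] (D : V → V → Prop),
    (∀ u v, u ≠ v → D u v ∨ D v u) → KStrong D k → N ≤ Fintype.card V → StrongMinor D (k + 1) := by
  classical
  set q := 4 ^ (k + (k + 1) + 1) with hq
  have hqk : k ≤ q := by
    have h1 : k + (k + 1) + 1 < 4 ^ (k + (k + 1) + 1) := Nat.lt_pow_self (by norm_num)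
    omega
  set M := k + q with hM
  refine ⟨4 ^ (M + M + 1), fun V _ _ D hsc hk hV => ?_⟩
  obtain ⟨A, B, _, _, hA, hB, hdAB, hAB⟩ := oneway D M M Finset.univ (by simpa using hV)
    (fun u _ v _ h => hsc u v h)
  by_cases h : ∀ S : Finset V, S.card < k + 1 → ∃ b ∈ B, b ∉ S ∧ ∃ a ∈ A, a ∉ S ∧
      ReflTransGen (fun x y => D x y ∧ y ∉ S) b a
  · obtain ⟨P⟩ := menger_thm D B A (k + 1) h
    exact minor_of_link D A B (k + 1) hAB P
  · push Not at h
    obtain ⟨S, hSc, hS⟩ := h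
    set R : Finset V := Finset.univ.filter fun v => ∃ b ∈ B, b ∉ S ∧
      ReflTransGen (fun x y => D x y ∧ y ∉ S) b v with hRdef
    have hRmem : ∀ v, v ∈ R ↔ ∃ b ∈ B, b ∉ S ∧ ReflTransGen (fun x y => D x y ∧ y ∉ S) b v := by
      intro v; simp [hRdef]
    set L : Finset V := Finset.univ \ (R ∪ S) with hLdef
    have hLmem : ∀ v, v ∈ L ↔ v ∉ R ∧ v ∉ S := by
      intro v; simp [hLdef]
    have hRS : ∀ v ∈ R, v ∉ S := by
      intro v hv
      obtain ⟨b, _, hbS, hr⟩ := (hRmem v).1 hv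
      rcases hr.cases_tail with h1 | ⟨w, _, hw⟩
      · exact h1 ▸ hbS
      · exact hw.2
    have hRL : ∀ u ∈ R, ∀ v ∈ L, ¬ D u v := by
      intro u hu v hv hD
      obtain ⟨b, hb, hbS, hr⟩ := (hRmem u).1 hu
      obtain ⟨hvR, hvS⟩ := (hLmem v).1 hv
      exact hvR ((hRmem v).2 ⟨b, hb, hbS, hr.tail ⟨hD, hvS⟩⟩)
    have hLR : ∀ l ∈ L, ∀ r ∈ R, D l r := by
      intro l hl r hr
      have hne : l ≠ r := fun e => ((hLmem l).1 hl).1 (e ▸ hr)
      rcases hsc l r hne with h1 | h1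
      · exact h1
      · exact absurd h1 (hRL r hr l hl)
    have hBR : B \ S ⊆ R := by
      intro b hb
      obtain ⟨hb1, hb2⟩ := Finset.mem_sdiff.1 hb
      exact (hRmem b).2 ⟨b, hb1, hb2, ReflTransGen.refl⟩
    have hAL : A \ S ⊆ L := by
      intro a ha
      obtain ⟨ha1, ha2⟩ := Finset.mem_sdiff.1 ha
      refine (hLmem a).2 ⟨fun haR => ?_, ha2⟩
      obtain ⟨b, hb, hbS, hr⟩ := (hRmem a).1 haR
      exact hS b hb hbS a ha1 ha2 hr
    have hRc : k ≤ R.card := by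
      have h1 := Finset.card_le_card hBR
      have h2 := Finset.le_card_sdiff S B
      omega
    have hLc : q ≤ L.card := by
      have h1 := Finset.card_le_card hAL
      have h2 := Finset.le_card_sdiff S A
      omega
    obtain ⟨L0, Y, hL0, hY, hL0c, hYc, _, h0Y⟩ := oneway D k (k + 1) L hLc
      (fun u _ v _ h => hsc u v h)
    obtain ⟨P⟩ := link_of_kstrong D k hk R L0 hRc hL0c.ge
    refine key D R S L L0 Y k ?_ ?_ hRS ?_ (by omega) hRL hLR hL0 hY h0Y hYc.ge P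
    · intro v
      by_cases h1 : v ∈ R
      · exact Or.inl h1
      · by_cases h2 : v ∈ S
        · exact Or.inr (Or.inl h2)
        · exact Or.inr (Or.inr ((hLmem v).2 ⟨h1, h2⟩))
    · intro v hv hvL
      exact ((hLmem v).1 hvL).1 hv
    · intro v hv
      exact ((hLmem v).1 hv).2

end Pool.Agent.W895653
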