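import Pool.Agent.W_895653_h19.Main
import Pool.Agent.W_895653_h19.Key2
import Pool.Agent.W_895653_h19.ExB

/-!
# MP_895653_co: the exact thresholds
-/

set_option autoImplicit false

open Relation Finset

namespace Pool.Agent.W895653

/-- Every set of pairwise non-adjacent vertices has at most `α` elements. -/
def IndepLE {V : Type} (D : V → V → Prop) (α : ℕ) : Prop :=
  ∀ I : Finset V, (∀ u ∈ I, ∀ v ∈ I, u ≠ v → ¬ D u v) → I.card ≤ α

/-- Tournament: no loops, exactly one arc between any two vertices. -/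
def IsTournament {V : Type} (D : V → V → Prop) : Prop :=
  (∀ v, ¬ D v v) ∧ ∀ u v, u ≠ v → (D u v ↔ ¬ D v u)

/-- Two disjoint sets of `N` vertices with an arc, in at least one direction, between any vertex of the
first and any vertex of the second. -/
def HasBiclique {V : Type} (D : V → V → Prop) (N : ℕ) : Prop :=
  ∃ A B : Finset V, Disjoint A B ∧ A.card = N ∧ B.card = N ∧ ∀ a ∈ A, ∀ b ∈ B, D a b ∨ D b a

theorem partC (k α : ℕ) : ∃ N : ℕ, ∀ (V : Type) [Fintype V] (D : V → V → Prop),
    KStrong D k → N ≤ Fintype.card V → IndepLE D α → StrongMinor D (k + 1) := by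
  classical
  set q := 4 ^ ((k * α + 1) + k + 1) with hq
  obtain ⟨N, hN⟩ := ramsey (α + 1) (4 ^ (k + q + 1))
  refine ⟨N, fun V _ D hD hV hI => ?_⟩
  rcases hN V (fun u v => D u v ∨ D v u) (fun u v h => h.symm) Finset.univ (by simpa using hV) with
    ⟨I, _, hIc, hI'⟩ | ⟨Y, _, hYc, hY⟩
  · have := hI I (fun u hu v hv huv h => hI' u hu v hv huv (Or.inl h))
    omega
  · obtain ⟨L, T, _, hTY, hL, hT, hdLT, hLT⟩ := oneway D k q Y hYc.ge hY
    obtain ⟨M, H, hMT, hHT, hM, hH, _, hMH⟩ := oneway D (k * α + 1) k T hT.ge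
      (fun u hu v hv h => hY u (hTY hu) v (hTY hv) h)
    obtain ⟨P⟩ := link_of_kstrong D k hD H L hH.ge hL.ge
    exact key2 D L M H k α (fun x hx y hy => hLT x hx y (hMT hy)) hMH
      (fun x hx y hy => hLT x hx y (hHT hy))
      (fun x hx hxM => Finset.disjoint_left.1 hdLT hx (hMT hxM)) hM.ge hI P

/-- Exact threshold for large digraphs of bounded independence number. -/
theorem exact_indep (α r : ℕ) (hr : 2 ≤ r) : ∃ N : ℕ, ∀ n : ℕ, N ≤ n →
    (∀ (V : Type) [Fintype V] (D : V → V → Prop), Fintype.card V = n → IndepLE D α →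
      KStrong D (r - 1) → StrongMinor D r) ∧
    (∃ D : Fin n → Fin n → Prop, IsTournament D ∧ KStrong D (r - 2) ∧ ¬ StrongMinor D r) := by
  obtain ⟨N, hN⟩ := partC (r - 1) α
  refine ⟨max N (3 * (r - 2) + 1), fun n hn => ⟨fun V _ D hV hI hD => ?_, ?_⟩⟩
  · have e : r - 1 + 1 = r := by omega
    have := hN V D hD (by rw [hV]; exact (le_max_left _ _).trans hn) hI
    rwa [e] at this
  · have h3 : 3 * (r - 2) + 1 ≤ n := (le_max_right _ _).trans hn
    refine ⟨TT n (r - 2), ⟨TT_irrefl n _, TT_tour n _⟩, ?_, ?_⟩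
    · rcases Nat.eq_zero_or_pos (r - 2) with h | h
      · rw [h]
        refine ⟨?_, fun S hS => by omega⟩
        rw [Fintype.card_fin]
        omega
      · exact TT_kstrong n (r - 2) h (by omega)
    · have := TT_no_minor n (r - 2)
      have e : r - 2 + 2 = r := by omega
      rwa [e] at this

/-- Exact threshold for digraphs with a large biclique. -/
theorem exact_biclique (r : ℕ) :
    (∃ N : ℕ, ∀ (V : Type) [Fintype V] (D : V → V → Prop), HasBiclique D N → KStrong D r →
      StrongMinor D r) ∧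
    (2 ≤ r → ∀ N : ℕ, ∃ (V : Type) (_ : Fintype V) (D : V → V → Prop), (∀ v, ¬ D v v) ∧
      HasBiclique D N ∧ KStrong D (r - 1) ∧ ¬ StrongMinor D r) := by
  classical
  constructor
  · obtain ⟨N, hN⟩ := partA r
    refine ⟨N, fun V _ D hB hD => ?_⟩
    obtain ⟨A, B, hd, hA, hB, hAB⟩ := hB
    exact hN V D hD ⟨A, B, hd, hA.ge, hB.ge, hAB⟩
  · intro hr N
    refine ⟨Option (Fin (N + 1) × Fin 4) × Fin (r - 1), inferInstance, ED (N + 1) (r - 1),
      ED_irrefl _ _, ?_, ED_kstrong _ _ (by omega) (by omega), ?_⟩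
    · obtain ⟨A, B, hd, hA, hB, hAB⟩ := ED_biclique (N + 1) (r - 1) (by omega)
      obtain ⟨A', hA', hAc⟩ := Finset.exists_subset_card_eq (show N ≤ A.card by omega)
      obtain ⟨B', hB', hBc⟩ := Finset.exists_subset_card_eq (show N ≤ B.card by omega)
      exact ⟨A', B', hd.mono hA' hB', hAc, hBc,
        fun a ha b hb => Or.inl (hAB a (hA' ha) b (hB' hb))⟩
    · have := ED_no_minor (N + 1) (r - 1)
      have e : r - 1 + 1 = r := by omega
      rwa [e] at this

end Pool.Agent.W895653
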