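import Pool.Agent.W_895653_h19.Main2
import Pool.Agent.W_895653_h19.ExC

/-!
# MP_895653_co: dense digraphs, highly connected digraphs of bounded independence number
-/

set_option autoImplicit false

open Relation Finset

namespace Pool.Agent.W895653

/-- Bounded independence number: some connectivity forces the minor (all orders). -/
theorem indep_all (α r : ℕ) (hr : 2 ≤ r) : ∃ K : ℕ, ∀ (V : Type) [Fintype V] (D : V → V → Prop),
    IndepLE D α → KStrong D K → StrongMinor D r := by
  obtain ⟨N, hN⟩ := partC (r - 1) α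
  refine ⟨max N (r - 1), fun V _ D hI hK => ?_⟩
  have e : r - 1 + 1 = r := by omega
  have h1 := hK.1
  have h2 := le_max_left N (r - 1)
  have := hN V D (kstrong_mono D (le_max_right _ _) hK) (by omega) hI
  rwa [e] at this

/-- Semicomplete multipartite digraphs. -/
theorem multipartite (r : ℕ) : ∃ K : ℕ, ∀ (V : Type) [Fintype V] (D : V → V → Prop)
    (c : V → ℕ), (∀ u v, c u = c v → ¬ D u v) → (∀ u v, c u ≠ c v → D u v ∨ D v u) →
    KStrong D K → StrongMinor D r := by
  classical
  obtain ⟨K, hK⟩ := partMulti r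
  exact ⟨K, fun V _ D c h0 h1 h => hK V D c h0 h1 h⟩

/-- Dense digraphs. -/
theorem dense (r : ℕ) (hr : 1 ≤ r) : ∃ n0 : ℕ, ∀ (V : Type) [Fintype V] (D : V → V → Prop),
    (∀ v, ¬ D v v) → n0 ≤ Fintype.card V →
    (Fintype.card V : ℝ) ^ (2 - 1 / (2 * (r : ℝ))) ≤ (numArcs D : ℝ) → KStrong D r →
    StrongMinor D r := by
  classical
  obtain ⟨n0, h0⟩ := kst r hr
  refine ⟨n0, fun V _ D hirr hn he hD => ?_⟩
  obtain ⟨A, B, _, hA, hB, hAB⟩ := h0 V D hirr hn he
  exact minor_of_oneway D r hD A B hA.ge hB.ge hAB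

end Pool.Agent.W895653
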