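import Pool.Agent.W_895653_h19.Main3

/-!
# MP_895653_co: connectivity `r` is exactly what is needed for digraphs with a large biclique and for dense digraphs
-/

set_option autoImplicit false

open Relation Finset

namespace Pool.Agent.W895653

theorem exact_dense (r : ℕ) (hr : 2 ≤ r) :
    (∃ N : ℕ, ∀ (V : Type) [Fintype V] (D : V → V → Prop), (∀ v, ¬ D v v) →
      (HasBiclique D N ∨ (N ≤ Fintype.card V ∧
        (Fintype.card V : ℝ) ^ (2 - 1 / (2 * (r : ℝ))) ≤ (numArcs D : ℝ))) →
      KStrong D r → StrongMinor D r) ∧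
    (∀ N : ℕ, ∃ (V : Type) (_ : Fintype V) (D : V → V → Prop), (∀ v, ¬ D v v) ∧
      HasBiclique D N ∧ (Fintype.card V) ^ 2 ≤ 17 * numArcs D ∧
      KStrong D (r - 1) ∧ ¬ StrongMinor D r) := by
  classical
  constructor
  · obtain ⟨N1, hN1⟩ := partA r
    obtain ⟨N2, hN2⟩ := dense r (by omega)
    refine ⟨max N1 N2, fun V _ D hirr h hD => ?_⟩
    rcases h with ⟨A, B, hd, hA, hB, hAB⟩ | ⟨hn, he⟩
    · exact hN1 V D hD ⟨A, B, hd, by rw [hA]; exact le_max_left _ _, by rw [hB]; exact le_max_left _ _,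
        hAB⟩
    · exact hN2 V D hirr ((le_max_right _ _).trans hn) he hD
  · intro N
    refine ⟨Option (Fin (N + 9) × Fin 4) × Fin (r - 1), inferInstance, ED (N + 9) (r - 1),
      ED_irrefl _ _, ?_, ED_arcs _ _ (by omega), ED_kstrong _ _ (by omega) (by omega), ?_⟩
    · obtain ⟨A, B, hd, hA, hB, hAB⟩ := ED_biclique (N + 9) (r - 1) (by omega)
      obtain ⟨A', hA', hAc⟩ := Finset.exists_subset_card_eq (show N ≤ A.card by omega)
      obtain ⟨B', hB', hBc⟩ := Finset.exists_subset_card_eq (show N ≤ B.card by omega)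
      exact ⟨A', B', hd.mono hA' hB', hAc, hBc,
        fun a ha b hb => Or.inl (hAB a (hA' ha) b (hB' hb))⟩
    · have := ED_no_minor (N + 9) (r - 1)
      have e : r - 1 + 1 = r := by omega
      rwa [e] at this

end Pool.Agent.W895653
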