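import Pool.Agent.W_895653_h19.Defs

/-!
# Menger's theorem for digraphs (from Hall's theorem)
-/

set_option autoImplicit false

open Relation Finset

namespace Pool.Agent.W895653

variable {V : Type}

open Classical in
/-- The allowed images in Hall's theorem. -/
noncomputable def mT [Fintype V] (D : V → V → Prop) (A B : Finset V) (k : ℕ) :
    V ⊕ Fin k → Finset (V ⊕ Fin k)
  | Sum.inl v => ((Finset.univ.filter fun u => u = v ∨ D v u).image Sum.inl) ∪
      (if v ∈ B then Finset.univ.image Sum.inr else ∅)
  | Sum.inr _ => A.image Sum.inl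

theorem hall_cond [Fintype V] (D : V → V → Prop) (A B : Finset V) (k : ℕ)
    (h : ∀ S : Finset V, S.card < k → ∃ a ∈ A, a ∉ S ∧ ∃ b ∈ B, b ∉ S ∧
      ReflTransGen (fun x y => D x y ∧ y ∉ S) a b) [DecidableEq (V ⊕ Fin k)] (X : Finset (V ⊕ Fin k)) :
    X.card ≤ (X.biUnion (mT D A B k)).card := by
  rename_i inst
  classical
  obtain rfl : inst = (fun a b => instDecidableEqSum a b) := Subsingleton.elim _ _
  set XV : Finset V := Finset.univ.filter fun v => Sum.inl v ∈ X with hXV
  have memXV : ∀ v, v ∈ XV ↔ Sum.inl v ∈ X := fun v => by simp [hXV]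
  have hXsub : X ⊆ XV.image Sum.inl ∪ Finset.univ.image Sum.inr := by
    intro x hx
    rcases x with v | i
    · exact Finset.mem_union_left _ (Finset.mem_image_of_mem _ ((memXV v).2 hx))
    · exact Finset.mem_union_right _ (Finset.mem_image_of_mem _ (Finset.mem_univ i))
  have hself : ∀ v u, Sum.inl v ∈ X → (u = v ∨ D v u) →
      (Sum.inl u : V ⊕ Fin k) ∈ X.biUnion (mT D A B k) := by
    intro v u hv hu
    rw [Finset.mem_biUnion]
    refine ⟨Sum.inl v, hv, ?_⟩
    simp only [mT]
    exact Finset.mem_union_left _ (Finset.mem_image_of_mem _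
      (Finset.mem_filter.2 ⟨Finset.mem_univ _, hu⟩))
  by_cases hr : ∃ i : Fin k, Sum.inr i ∈ X
  · obtain ⟨i, hi⟩ := hr
    have hA : ∀ a ∈ A, (Sum.inl a : V ⊕ Fin k) ∈ X.biUnion (mT D A B k) := by
      intro a ha
      rw [Finset.mem_biUnion]
      exact ⟨Sum.inr i, hi, by simp only [mT]; exact Finset.mem_image_of_mem _ ha⟩
    have hcardX : X.card ≤ XV.card + k := by
      refine (Finset.card_le_card hXsub).trans ((Finset.card_union_le _ _).trans ?_)
      rw [Finset.card_image_of_injective _ Sum.inl_injective,
        Finset.card_image_of_injective _ Sum.inr_injective, Finset.card_univ, Fintype.card_fin]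
    by_cases hB : ∃ v ∈ XV, v ∈ B
    · obtain ⟨v, hv, hvB⟩ := hB
      refine Finset.card_le_card (hXsub.trans ?_)
      intro x hx
      rw [Finset.mem_union, Finset.mem_image, Finset.mem_image] at hx
      rcases hx with ⟨u, hu, rfl⟩ | ⟨j, -, rfl⟩
      · exact hself u u ((memXV u).1 hu) (Or.inl rfl)
      · rw [Finset.mem_biUnion]
        refine ⟨Sum.inl v, (memXV v).1 hv, ?_⟩
        simp only [mT]
        refine Finset.mem_union_right _ ?_
        rw [if_pos hvB]
        exact Finset.mem_image_of_mem _ (Finset.mem_univ _)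
    · push Not at hB
      set N : Finset V := Finset.univ.filter fun u => ∃ v ∈ XV, u = v ∨ D v u with hN
      have memN : ∀ u, u ∈ N ↔ ∃ v ∈ XV, u = v ∨ D v u := fun u => by simp [hN]
      have hXN : XV ⊆ A ∪ N := fun v hv => Finset.mem_union_right _ ((memN v).2 ⟨v, hv, Or.inl rfl⟩)
      have hkS : k ≤ ((A ∪ N) \ XV).card := by
        by_contra hlt
        push Not at hlt
        obtain ⟨a, ha, haS, b, hb, hbS, hpath⟩ := h _ hlt
        have haX : a ∈ XV := by
          by_contra hno
          exact haS (Finset.mem_sdiff.2 ⟨Finset.mem_union_left _ ha, hno⟩)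
        have hall : ∀ y, ReflTransGen (fun x y => D x y ∧ y ∉ (A ∪ N) \ XV) a y → y ∈ XV := by
          intro y hy
          induction hy with
          | refl => exact haX
          | tail _ hstep ih =>
            by_contra hno
            exact hstep.2 (Finset.mem_sdiff.2
              ⟨Finset.mem_union_right _ ((memN _).2 ⟨_, ih, Or.inr hstep.1⟩), hno⟩)
        exact hB b (hall b hpath) hb
      have hsub : (A ∪ N).image Sum.inl ⊆ X.biUnion (mT D A B k) := by
        intro x hx
        rw [Finset.mem_image] at hx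
        obtain ⟨u, hu, rfl⟩ := hx
        rcases Finset.mem_union.1 hu with hu | hu
        · exact hA u hu
        · obtain ⟨v, hv, hvu⟩ := (memN u).1 hu
          exact hself v u ((memXV v).1 hv) hvu
      have h1 := Finset.card_le_card hsub
      rw [Finset.card_image_of_injective _ Sum.inl_injective] at h1
      have h2 := Finset.card_sdiff_add_card_eq_card hXN
      omega
  · push Not at hr
    refine Finset.card_le_card ?_
    intro x hx
    rcases x with v | i
    · exact hself v v hx (Or.inl rfl)
    · exact absurd hx (hr i)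

theorem exists_inj [Fintype V] (D : V → V → Prop) (A B : Finset V) (k : ℕ)
    (h : ∀ S : Finset V, S.card < k → ∃ a ∈ A, a ∉ S ∧ ∃ b ∈ B, b ∉ S ∧
      ReflTransGen (fun x y => D x y ∧ y ∉ S) a b) :
    ∃ f : V ⊕ Fin k → V ⊕ Fin k, Function.Injective f ∧
      (∀ i, ∃ a ∈ A, f (Sum.inr i) = Sum.inl a) ∧
      (∀ v u, f (Sum.inl v) = Sum.inl u → u = v ∨ D v u) ∧
      (∀ v i, f (Sum.inl v) = Sum.inr i → v ∈ B) := by
  classical
  obtain ⟨f, hf, hft⟩ := (Finset.all_card_le_biUnion_card_iff_exists_injective (mT D A B k)).1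
    (hall_cond D A B k h)
  refine ⟨f, hf, ?_, ?_, ?_⟩
  · intro i
    have := hft (Sum.inr i)
    simp only [mT, Finset.mem_image] at this
    obtain ⟨a, ha, hfa⟩ := this
    exact ⟨a, ha, hfa.symm⟩
  · intro v u hvu
    have := hft (Sum.inl v)
    rw [hvu] at this
    simp only [mT, Finset.mem_union, Finset.mem_image, Finset.mem_filter, Finset.mem_univ,
      true_and] at this
    rcases this with ⟨w, hw, hwu⟩ | this
    · rw [Sum.inl.injEq] at hwu
      exact hwu ▸ hw
    · split_ifs at this with hB
      · simp at this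
      · simp at this
  · intro v i hvi
    have := hft (Sum.inl v)
    rw [hvi] at this
    simp only [mT, Finset.mem_union, Finset.mem_image, Finset.mem_filter, Finset.mem_univ,
      true_and] at this
    rcases this with ⟨w, hw, hwu⟩ | this
    · simp at hwu
    · split_ifs at this with hB
      · exact hB
      · simp at this

end Pool.Agent.W895653
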